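import Mathlib

/-!
# Project GQ: every even number up to Rankin's function is a gap between consecutive primes of almost all progressions (helper81), exact statements

For `X` in long ranges and almost all primes `a ≤ X / (log X)^2`: for EVERY even `t ≤ c log X loglog X loglogloglog X / (logloglog X)^2` there are
many primes `p` in `(X, 2 X]` such that `p + t a` is the next prime after `p` in the progression `p, p + a, p + 2 a, ...`.
Residue classes: `p ≡ κ a` modulo the primorial `W` of `w ≈ log X / (loglog X)^C`, so `p + j a ≡ (κ + j) a`.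
-/

set_option autoImplicit false

namespace Pool.Agent.J4H81.GQ

open Finset

open Classical in
/-- (KAP) Rankin's choice with protected end points and few survivors. Proof: (1) `rsurv` (Pool.Agent.R463.EI1) copied with `v₀ = (log y) ^ (A + 2)`
instead of `(log y) ^ 2` and `H ≤ y (log y) ^ (A + 2)` (everywhere `2 τ` becomes `(A + 2) τ`; `ps = 1`; constants depend on `A`);
(2) as the first half of `cover` (Pool.Agent.R463.EI3): `start` gives `c0`, `S` = the primes `≤ y` dividing `c0 (c0 + t)`, the survivors in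
`[0, y + t]`; (3) Chinese remainder theorem for ALL primes `p ≤ y`: `n1 ≡ - b p` for `p ∉ S`, and for `p ∈ S` (`p > 3`) any class with
`p ∤ n1 + c0`, `p ∤ n1 + c0 + t`; `κ = n1 + c0`. -/
def S_KAP : Prop := ∀ A : ℕ, ∃ C : ℝ, 0 < C ∧ ∃ y₀ : ℕ, ∀ y : ℕ, y₀ ≤ y → ∀ t : ℕ, 2 ∣ t → 0 < t → (t : ℝ) ≤ y * Real.log y ^ A →
  ∃ κ : ℕ, κ.Coprime (primorial y) ∧ (κ + t).Coprime (primorial y) ∧
    (((Ioo 0 t).filter (fun j => (κ + j).Coprime (primorial y))).card : ℝ) ≤
      C * (t + y) * Real.log (Real.log y) ^ 2 / (Real.log y ^ 2 * Real.log (Real.log (Real.log y)))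

open Classical in
/-- (TRI) upper bound sieve for three linear forms with the leading coefficient `primorial w`. Proof: `sys_fund 3 _ 1 _`
(Pool.Agent.H373R2.T7.Fund) with `Q p s := w < p ∧ ∃ i, p ∣ r i + primorial w * s`, `x = N`, sieving up to `z = ⌊N ^ (1 / K)⌋`: at most
`2 N ∏_{w < p ≤ z} (1 - ν / p) + √N`; `ν p = 3` unless `p` divides a difference (at most 15 such primes, there `ν ≥ 1`), and Mertens
(`cz_bounds` or `V_lower_unif`). -/
def S_TRI : Prop := ∃ C : ℝ, 0 < C ∧ ∃ N₀ : ℕ, ∀ N w : ℕ, N₀ ≤ N → N₀ ≤ w → (w : ℝ) ≤ Real.log N →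
  ∀ r : Fin 3 → ℕ, (∀ i, (r i).Coprime (primorial w)) →
  (∀ i j, i ≠ j → r i ≠ r j ∧ (((r i : ℤ) - r j).natAbs.primeFactors.filter (fun p => w < p)).card ≤ 5) →
  (((range N).filter (fun s => ∀ i, (r i + primorial w * s).Prime ∧ N < r i + primorial w * s)).card : ℝ) ≤
    C * N * (Real.log w / Real.log N) ^ 3

end Pool.Agent.J4H81.GQ
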