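import Pool.Agent.J4H32.MV.G2a
import Pool.Agent.J4H32.MV.Core2

/-!
# Project GQ: pairs of primes `n, n + t a` with `n ≡ κ a` modulo the primorial, for all but few `a` (adaptation of `fin4` of helper32)
-/

set_option autoImplicit false

namespace Pool.Agent.J4H81.GQ

open Finset MeasureTheory Filter
open Pool.Agent.J4H81.PT Pool.Agent.J4H32.MV

/-- counting: exceptional shifts from exceptional pairs -/
theorem cn1 {W t Y v : ℕ} (hW : 0 < W) (ht : 0 < t) (b : ℕ → ℕ) (hb : ∀ α, b α < W) (Ex : ℕ → Finset (Fin 2 → ℕ)) (M : ℝ)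
    (hM : ∀ α, ((Ex α).card : ℝ) ≤ M) (Z : Finset ℕ)
    (hZ : ∀ a ∈ Z, ∀ u < Y, (![v + u, v + u + (b (a % W) + t * a) / W] : Fin 2 → ℕ) ∈ Ex (a % W)) :
    (Z.card : ℝ) * Y ≤ W * M := by
  classical
  have h1 : (Z ×ˢ range Y).card ≤ ((range W).sigma (fun α => Ex α)).card := by
    apply card_le_card_of_injOn (fun p => (⟨p.1 % W, ![v + p.2, v + p.2 + (b (p.1 % W) + t * p.1) / W]⟩ : Σ _ : ℕ, (Fin 2 → ℕ)))
    · intro p hp
      rw [Finset.mem_coe, Finset.mem_product] at hp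
      rw [Finset.mem_coe, Finset.mem_sigma]
      exact ⟨Finset.mem_range.2 (Nat.mod_lt _ hW), hZ p.1 hp.1 p.2 (Finset.mem_range.1 hp.2)⟩
    · rintro ⟨a, u⟩ _ ⟨a', u'⟩ _ h
      simp only [Sigma.mk.injEq] at h
      obtain ⟨h2, h3⟩ := h
      have h4 := heq_iff_eq.1 h3
      have h5 := congrFun h4 0
      have h6 := congrFun h4 1
      simp only [Matrix.cons_val_zero, Matrix.cons_val_one] at h5 h6
      have hu : u = u' := by omega
      subst hu
      rw [h2] at h6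
      have h7 : (b (a' % W) + t * a) / W = (b (a' % W) + t * a') / W := by omega
      have h8 : (b (a' % W) + t * a) % W = (b (a' % W) + t * a') % W := by
        have : t * a ≡ t * a' [MOD W] := Nat.ModEq.mul_left t h2
        exact Nat.ModEq.add_left _ this
      have h9 : b (a' % W) + t * a = b (a' % W) + t * a' := by
        rw [← Nat.div_add_mod (b (a' % W) + t * a) W, ← Nat.div_add_mod (b (a' % W) + t * a') W, h7, h8]
      have h10 : t * a = t * a' := by omega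
      have h11 := Nat.eq_of_mul_eq_mul_left ht h10
      rw [h11]
  rw [card_product, card_range, card_sigma] at h1
  have h2 : ((Z.card * Y : ℕ) : ℝ) ≤ ((∑ α ∈ range W, (Ex α).card : ℕ) : ℝ) := by exact_mod_cast h1
  push_cast at h2
  refine h2.trans ?_
  calc ∑ α ∈ range W, ((Ex α).card : ℝ) ≤ ∑ α ∈ range W, M := sum_le_sum fun α _ => hM α
    _ = W * M := by rw [sum_const, card_range, nsmul_eq_mul]

/-- multiplication by a unit: the classes which meet `B` -/
theorem bad_cls {W : ℕ} [NeZero W] (B : Finset (ZMod W)) {κ A : ℕ} (hκ : κ.Coprime W) (hA : W ≤ A) (Z : Finset ℕ)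
    (hZ : ∀ a ∈ Z, 1 ≤ a ∧ a ≤ A ∧ ((κ * a : ℕ) : ZMod W) ∈ B) : (Z.card : ℝ) * W ≤ 2 * A * B.card := by
  classical
  have hW : 0 < W := Nat.pos_of_ne_zero (NeZero.ne W)
  have hu : IsUnit ((κ : ℕ) : ZMod W) := (ZMod.isUnit_iff_coprime κ W).2 hκ
  have h1 : Z.card ≤ (B ×ˢ range (A / W + 1)).card := by
    apply card_le_card_of_injOn (fun a => (((κ * a : ℕ) : ZMod W), a / W))
    · intro a ha
      obtain ⟨h1, h2, h3⟩ := hZ a ha
      rw [Finset.mem_coe, Finset.mem_product]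
      exact ⟨h3, Finset.mem_range.2 (Nat.lt_succ_of_le (Nat.div_le_div_right h2))⟩
    · intro a _ a' _ h
      simp only [Prod.mk.injEq] at h
      obtain ⟨h2, h3⟩ := h
      push_cast at h2
      have h4 := hu.mul_left_cancel h2
      rw [ZMod.natCast_eq_natCast_iff] at h4
      rw [← Nat.div_add_mod a W, ← Nat.div_add_mod a' W, h3, h4]
  rw [card_product, card_range] at h1
  have h2 : (A / W + 1) * W ≤ 2 * A := by
    have := Nat.div_mul_le_self A W
    rw [add_mul, one_mul]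
    omega
  have h3 : Z.card * W ≤ B.card * (2 * A) := by
    calc Z.card * W ≤ B.card * (A / W + 1) * W := Nat.mul_le_mul_right W h1
      _ = B.card * ((A / W + 1) * W) := by ring
      _ ≤ B.card * (2 * A) := Nat.mul_le_mul_left _ h2
  have h4 : ((Z.card * W : ℕ) : ℝ) ≤ ((B.card * (2 * A) : ℕ) : ℝ) := by exact_mod_cast h3
  push_cast at h4
  linarith

open Classical in
theorem gq1 (hTE : S_TE) (hMD : S_MD) (hMB : S_MB) {D D₁ c₁ : ℕ} {l ε C : ℝ} {X X' : ℕ}
    (hD : D = D₁ + c₁ + 10)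
    (hPS : ∀ Q : ℕ, (Q : ℝ) ≤ Real.exp l → ∑ p ∈ (range (Q + 1)).filter Nat.Prime, 1 / (p : ℝ) ≤ C * Real.log l)
    (hc₁ : 4 ^ 2 * (2 * ((2 : ℕ) : ℝ) + 2) * C ≤ c₁)
    (hl4 : 10 ^ 6 ≤ l) (hε0 : 0 ≤ ε) (hε : ε ≤ 1 / 2000)
    (hl6 : 4 * ((2 : ℕ) : ℝ) * l ^ (c₁ + 4) ≤ Real.exp (l / 250))
    (hX' : X' = 4 * X / 5)
    (hX : Real.exp (5 * l) ≤ X)
    (hSD : SD2 D l X') :
    ∃ w : ℕ, l / 2000 ≤ w ∧ (w : ℝ) ≤ l ∧ (primorial w : ℝ) ≤ Real.exp (l / 700) ∧ 1000 * primorial w ≤ X ∧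
      ∀ κ t A : ℕ, 0 < t → κ.Coprime (primorial w) → (κ + t).Coprime (primorial w) → t * A ≤ X → primorial w ≤ A →
      ((((Icc 1 A).filter (fun a => a.Coprime (primorial w) ∧ Sg w ((t * a : ℕ) : ℤ) ≤ ε ∧
        ∀ v : ℕ, X < primorial w * v → primorial w * (v + X / primorial w / 2 + 1) ≤ 2 * X →
          ∑ s ∈ range (X / primorial w / 2), nu ((κ * a) % primorial w + primorial w * (v + s)) * nu ((κ * a) % primorial w + primorial w * (v + s) + t * a) <
            ((X / primorial w / 2 : ℕ) : ℝ) / 2 * ((primorial w : ℝ) / (Nat.totient (primorial w) : ℝ)) ^ 2)).card : ℝ)) ≤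
        4 * A / l ^ D₁ + 20000 * X * Real.exp (-(l / 200)) := by
  obtain ⟨w, W, T, Q, P, N₁, ω, B₀, m₀, Et, h2⟩ := hSD
  have h := h2.base
  have hone := h2.one
  have hWpr := h.hW
  set K : ℕ := 2 with hKdef
  have hK1 : (1 : ℝ) ≤ (K : ℝ) := by rw [hKdef]; norm_num
  have hK2 : (K : ℝ) = 2 := by rw [hKdef]; norm_num
  have hK0 : (0 : ℝ) < (K : ℝ) := by linarith
  have hl0 : 0 < l := by linarith
  have hl1 : 1 ≤ l := by linarith
  have hWpos : 0 < W := by rw [h.hW]; exact primorial_pos w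
  have : NeZero W := ⟨hWpos.ne'⟩
  have hW0 : (0 : ℝ) < W := by exact_mod_cast hWpos
  have hW1 : (1 : ℝ) ≤ W := by exact_mod_cast hWpos
  have hwr : 5 ≤ (w : ℝ) := by linarith [h.hw1]
  have hw2 : 2 ≤ w := by
    have : (2 : ℝ) ≤ w := by linarith
    exact_mod_cast this
  have hw0 : (0 : ℝ) < w := by linarith
  have hX0 : (0 : ℝ) < X := lt_of_lt_of_le (Real.exp_pos _) hX
  have he1 : 10 ^ 6 ≤ Real.exp l := by
    have := Real.add_one_le_exp l
    linarith
  -- the ranges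
  have hWX : W * 1000 ≤ X := by
    have h1 : (W : ℝ) * 1000 ≤ X := by
      calc (W : ℝ) * 1000 ≤ Real.exp (l / 700) * Real.exp l := by
            apply mul_le_mul h.hWl (by linarith) (by norm_num) (Real.exp_pos _).le
        _ = Real.exp (l / 700 + l) := (Real.exp_add _ _).symm
        _ ≤ Real.exp (5 * l) := by
            apply Real.exp_le_exp.2
            linarith
        _ ≤ X := hX
    exact_mod_cast h1
  obtain ⟨hq1, hq2, hWT, h12X, hq20, hWq, hWq2⟩ := ranges2 hWpos hX' h.hT hWX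
  set q : ℕ := X / W with hq
  have hq0 : (0 : ℝ) < q := by exact_mod_cast (by omega : 0 < q)
  have hTpos : 1 ≤ T := by omega
  have hT0 : (0 : ℝ) < T := by exact_mod_cast hTpos
  have h12Xr : 12 * (X : ℝ) ≤ W * T := by exact_mod_cast h12X
  have hWTr : (W : ℝ) * T ≤ 13 * X := by exact_mod_cast hWT
  have hTq : (T : ℝ) ≤ 14 * q := by exact_mod_cast hq2
  have hX1 : (1 : ℝ) ≤ X := by
    have : 0 < X := by exact_mod_cast hX0
    exact_mod_cast this
  have hTexp : Real.exp ((K + 2) * l) ≤ T := by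
    have h1 : 12 * (X : ℝ) * Real.exp (-(l / 700)) ≤ T := by
      have h1 : 12 * (X : ℝ) ≤ Real.exp (l / 700) * T := h12Xr.trans (mul_le_mul_of_nonneg_right h.hWl hT0.le)
      calc 12 * (X : ℝ) * Real.exp (-(l / 700)) ≤ Real.exp (l / 700) * T * Real.exp (-(l / 700)) :=
            mul_le_mul_of_nonneg_right h1 (Real.exp_pos _).le
        _ = T * (Real.exp (l / 700) * Real.exp (-(l / 700))) := by ring
        _ = T := by rw [← Real.exp_add]; simp
    calc Real.exp ((K + 2) * l) ≤ Real.exp (5 * l + -(l / 700)) := Real.exp_le_exp.2 (by rw [hK2]; linarith)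
      _ = Real.exp (5 * l) * Real.exp (-(l / 700)) := Real.exp_add _ _
      _ ≤ X * Real.exp (-(l / 700)) := mul_le_mul_of_nonneg_right hX (Real.exp_pos _).le
      _ ≤ 12 * X * Real.exp (-(l / 700)) := by
          apply mul_le_mul_of_nonneg_right _ (Real.exp_pos _).le
          linarith
      _ ≤ T := h1
  -- the moments
  have hB0 : 0 < B₀ := by linarith [h.hB1]
  have hB2K : 0 < B₀ ^ (2 * K) := by positivity
  have hQel : (Q : ℝ) ≤ Real.exp l := h.hQl.trans (Real.exp_le_exp.2 (by linarith))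
  have hlc1 : 1 ≤ l ^ c₁ := one_le_pow₀ hl1
  have hQpow : (Q : ℝ) ^ (4 * K) ≤ Real.exp ((K : ℝ) * l) := by
    calc (Q : ℝ) ^ (4 * K) ≤ Real.exp (l / 40) ^ (4 * K) := pow_le_pow_left₀ (Nat.cast_nonneg _) h.hQl _
      _ = Real.exp ((4 * K : ℕ) * (l / 40)) := by rw [← Real.exp_nat_mul]
      _ ≤ Real.exp ((K : ℝ) * l) := by
          apply Real.exp_le_exp.2
          push_cast
          nlinarith only [hK0, hl0]
  have hQpow2 : (Q : ℝ) ^ (2 * K) ≤ Real.exp ((K : ℝ) * l) := by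
    have hQ1 : (1 : ℝ) ≤ Q := by exact_mod_cast h.hQ1
    exact (pow_le_pow_right₀ hQ1 (by omega)).trans hQpow
  set a₁ : ℝ := 2 * l ^ c₁ * T with ha₁
  have hMB' : ∀ (C : Fin K → ℕ) (S : Finset (Fin K)), ∑ s ∈ range T, ∏ j ∈ S, GG W Q ((C j + W * s : ℕ) : ℤ) ^ 2 ≤ a₁ := by
    intro C' S
    refine (hMB K W Q T C' S h.hQ1 hTpos).trans ?_
    have h1 : Real.exp (4 ^ K * (2 * (K : ℝ) + 2) * ∑ p ∈ (range (Q + 1)).filter Nat.Prime, 1 / (p : ℝ)) ≤ l ^ c₁ := by
      have h2 := hPS Q hQel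
      have h3 : l ^ c₁ = Real.exp (c₁ * Real.log l) := by rw [Real.exp_nat_mul, Real.exp_log hl0]
      rw [h3]
      apply Real.exp_le_exp.2
      have hlog : 0 ≤ Real.log l := Real.log_nonneg hl1
      calc 4 ^ K * (2 * (K : ℝ) + 2) * ∑ p ∈ (range (Q + 1)).filter Nat.Prime, 1 / (p : ℝ) ≤ 4 ^ K * (2 * (K : ℝ) + 2) * (C * Real.log l) :=
            mul_le_mul_of_nonneg_left h2 (by positivity)
        _ = (4 ^ K * (2 * (K : ℝ) + 2) * C) * Real.log l := by ring
        _ ≤ c₁ * Real.log l := mul_le_mul_of_nonneg_right hc₁ hlog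
    have h4 : 4 * (Q : ℝ) ^ (4 * K) ≤ T := by
      calc 4 * (Q : ℝ) ^ (4 * K) ≤ Real.exp l * Real.exp ((K : ℝ) * l) := by
            apply mul_le_mul (by linarith) hQpow (by positivity) (Real.exp_pos _).le
        _ = Real.exp (l + K * l) := (Real.exp_add _ _).symm
        _ ≤ Real.exp ((K + 2) * l) := Real.exp_le_exp.2 (by linarith)
        _ ≤ T := hTexp
    have h5 : (T : ℝ) ≤ l ^ c₁ * T := le_mul_of_one_le_left hT0.le hlc1
    have h6 := mul_le_mul_of_nonneg_right h1 hT0.le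
    calc _ ≤ l ^ c₁ * T + l ^ c₁ * T := add_le_add h6 (h4.trans h5)
      _ = a₁ := by rw [ha₁]; ring
  set a' : ℝ := B₀ ^ (2 * K) * a₁ with ha
  set E : ℝ := T / (B₀ ^ (2 * K) * l ^ (c₁ + 4)) with hE
  have hE0 : 0 < E := by positivity
  set τ : ℝ := T / l ^ 2 with hτ
  have hτ0 : 0 < τ := by positivity
  have hEa : E * a' = 2 * (T / l ^ 2) ^ 2 := by
    rw [hE, ha, ha₁]
    field_simp
    ring
  have hsqrt : Real.sqrt (E * a') ≤ 2 * (T / l ^ 2) := by
    rw [hEa]
    apply Real.sqrt_le_iff.2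
    refine ⟨by positivity, ?_⟩
    have : 0 ≤ ((T : ℝ) / l ^ 2) ^ 2 := sq_nonneg _
    nlinarith only [this]
  have hsm : K * (Real.sqrt (E * a') + τ) ≤ q / 100 := by
    have h1 : (K : ℝ) * (Real.sqrt (E * a') + τ) ≤ K * (2 * (T / l ^ 2) + T / l ^ 2) := by
      apply mul_le_mul_of_nonneg_left _ hK0.le
      rw [hτ]
      linarith
    refine h1.trans ?_
    rw [hK2]
    have e : (2 : ℝ) * (2 * (T / l ^ 2) + T / l ^ 2) = (6 * T) / l ^ 2 := by ring
    rw [e, div_le_div_iff₀ (by positivity) (by norm_num)]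
    have h2 : (8400 : ℝ) ≤ l ^ 2 := by nlinarith only [hl4]
    calc 6 * T * 100 ≤ 6 * (14 * q) * (100 : ℝ) := by gcongr
      _ = 8400 * (q : ℝ) := by ring
      _ ≤ l ^ 2 * q := mul_le_mul_of_nonneg_right h2 hq0.le
      _ = q * l ^ 2 := by ring
  have hδw : 2 ^ K * ((K : ℝ) + 2) * (2 / w + K ^ 2 * ε) ≤ 1 / 8 := by
    have h1 : (2 : ℝ) / w ≤ 4000 / l := by
      rw [div_le_div_iff₀ hw0 hl0]
      linarith [h.hw1]
    have h3 : (4000 : ℝ) / l ≤ 1 / 250 := by
      rw [div_le_div_iff₀ hl0 (by norm_num)]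
      linarith
    have h4 : (2 : ℝ) ^ K * ((K : ℝ) + 2) = 16 := by rw [hKdef]; norm_num
    have h5 : ((K : ℝ)) ^ 2 = 4 := by rw [hKdef]; norm_num
    rw [h4, h5]
    linarith
  have hQT : 2 * (Q : ℝ) ^ (2 * K) * (2 * K + 2) ≤ q / 100 := by
    rw [le_div_iff₀ (by norm_num)]
    have h1 : 2 * (2 * (K : ℝ) + 2) * 100 * 14 ≤ Real.exp l := by
      rw [hK2]
      linarith
    have h2 : (2 * (Q : ℝ) ^ (2 * K) * (2 * K + 2) * 100) * 14 ≤ 14 * q := by
      calc (2 * (Q : ℝ) ^ (2 * K) * (2 * K + 2) * 100) * 14 = (2 * (2 * (K : ℝ) + 2) * 100 * 14) * (Q : ℝ) ^ (2 * K) := by ring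
        _ ≤ Real.exp l * Real.exp ((K : ℝ) * l) := mul_le_mul h1 hQpow2 (by positivity) (Real.exp_pos _).le
        _ = Real.exp (l + K * l) := (Real.exp_add _ _).symm
        _ ≤ Real.exp ((K + 2) * l) := Real.exp_le_exp.2 (by linarith)
        _ ≤ T := hTexp
        _ ≤ 14 * q := hTq
    linarith
  -- the classes
  obtain ⟨B, hBE, hBgood⟩ := cls h hTpos hE0
  have hBD : (B.card : ℝ) * l ^ D₁ ≤ W := by
    have hEt0 : 0 ≤ Et := le_trans (by positivity) hBE
    have h1 : (B.card : ℝ) * T ≤ Et * (B₀ ^ (2 * K) * l ^ (c₁ + 4)) := by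
      rw [hE, mul_div_assoc', div_le_iff₀ (by positivity)] at hBE
      exact hBE
    have h2 : B₀ ^ (2 * K) ≤ B₀ ^ D := pow_le_pow_right₀ h.hB1 (by omega)
    have h2' : l ^ (c₁ + 4 + D₁) ≤ l ^ D := pow_le_pow_right₀ hl1 (by omega)
    have h3 : (B.card : ℝ) * T * l ^ D₁ ≤ W * T := by
      calc (B.card : ℝ) * T * l ^ D₁ ≤ Et * (B₀ ^ (2 * K) * l ^ (c₁ + 4)) * l ^ D₁ :=
            mul_le_mul_of_nonneg_right h1 (by positivity)
        _ = Et * (B₀ ^ (2 * K) * l ^ (c₁ + 4 + D₁)) := by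
            rw [pow_add l (c₁ + 4) D₁]
            ring
        _ ≤ Et * (B₀ ^ D * l ^ D) := by
            apply mul_le_mul_of_nonneg_left _ hEt0
            exact mul_le_mul h2 h2' (by positivity) (by positivity)
        _ ≤ ((W * T : ℕ) : ℝ) := h.hEt1
        _ = W * T := by push_cast; ring
    have h4 : (B.card : ℝ) * l ^ D₁ * T ≤ W * T := by
      calc _ = (B.card : ℝ) * T * l ^ D₁ := by ring
        _ ≤ _ := h3
    exact le_of_mul_le_mul_right h4 hT0
  refine ⟨w, h.hw1, h.hw2, by rw [← hWpr]; exact h.hWl, by rw [← hWpr]; omega, ?_⟩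
  rw [← hWpr]
  intro κ t A ht hκ hκt htA hWA
  have hAX : A ≤ X := le_trans (Nat.le_mul_of_pos_left A ht) htA
  set c : ℕ → ℝ := fun n => nu n * ω n with hc
  -- the exceptional pairs
  set M : ℝ := K * (2 * m₀ ^ 2 * a' / τ ^ 2) * (T : ℝ) ^ (K - 1) with hM
  have hexr : ∀ α : ℕ, ∃ Ex : Finset (Fin K → ℕ), (Ex.card : ℝ) ≤ M ∧
      ((α.Coprime W ∧ ((κ * α : ℕ) : ZMod W) ∉ B ∧ (((κ + t) * α : ℕ) : ZMod W) ∉ B) →
        ∀ t' : Fin K → ℕ, (∀ j, t' j < T) → t' ∉ Ex →
        Function.Injective (fun j : Fin K => (![(κ * α) % W, ((κ + t) * α) % W] : Fin 2 → ℕ) j + W * t' j) →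
        (∀ i j : Fin K, Sg w ((((![(κ * α) % W, ((κ + t) * α) % W] : Fin 2 → ℕ) i + W * t' i : ℕ) : ℤ) - ((![(κ * α) % W, ((κ + t) * α) % W] : Fin 2 → ℕ) j + W * t' j : ℕ)) ≤ ε) →
        (∀ s < q / 2, ∀ j : Fin K, ω ((![(κ * α) % W, ((κ + t) * α) % W] : Fin 2 → ℕ) j + W * (s + t' j)) = 1) →
        |∑ s ∈ range (q / 2), ∏ j : Fin K, FFc W c ((![(κ * α) % W, ((κ + t) * α) % W] : Fin 2 → ℕ) j) (s + t' j) - ((q / 2 : ℕ) : ℝ)| ≤
          2 * (1 / 8) * ((q / 2 : ℕ) : ℝ) + 2 * (Q : ℝ) ^ (2 * K) * (2 * K + 2) + K * (Real.sqrt (E * a') + τ)) := by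
    intro α
    by_cases hα : α.Coprime W ∧ ((κ * α : ℕ) : ZMod W) ∉ B ∧ (((κ + t) * α : ℕ) : ZMod W) ∉ B
    · have hco : ∀ x : ℕ, x.Coprime W → (x % W).Coprime W := by
        intro x hx
        unfold Nat.Coprime
        rw [← Nat.gcd_rec, Nat.gcd_comm]
        exact hx
      have hcls : ∀ j : Fin K, ((![(κ * α) % W, ((κ + t) * α) % W] : Fin 2 → ℕ) j) < W ∧ ((![(κ * α) % W, ((κ + t) * α) % W] : Fin 2 → ℕ) j).Coprime W ∧
          (((![(κ * α) % W, ((κ + t) * α) % W] : Fin 2 → ℕ) j : ℕ) : ZMod W) ∉ B := by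
        intro j
        fin_cases j
        · simp only [Fin.zero_eta, Matrix.cons_val_zero]
          refine ⟨Nat.mod_lt _ hWpos, hco _ (Nat.Coprime.mul_left hκ hα.1), ?_⟩
          rw [ZMod.natCast_mod]
          exact hα.2.1
        · simp only [Fin.mk_one, Matrix.cons_val_one, Matrix.cons_val_fin_one]
          refine ⟨Nat.mod_lt _ hWpos, hco _ (Nat.Coprime.mul_left hκt hα.1), ?_⟩
          rw [ZMod.natCast_mod]
          exact hα.2.2
      obtain ⟨Ex, hEx1, hEx2⟩ := core2 hTE hMD h (E := E) (a := a') (a₁ := a₁) (τ := τ) (ε := ε) (δ := 1 / 8) (S₀ := q / 2) hw2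
        (fun j => (![(κ * α) % W, ((κ + t) * α) % W] : Fin 2 → ℕ) j) (fun j => (hBgood _ (hcls j).1 (hcls j).2.1 (hcls j).2.2).1)
        (fun j => (hBgood _ (hcls j).1 (hcls j).2.1 (hcls j).2.2).2) hMB' le_rfl hτ0 (by omega) hε0 hδw (by norm_num)
      exact ⟨Ex, hEx1, fun _ t' ht1 ht2 ht3 ht4 ht5 => hEx2 t' ht1 ht2 ht3 ht4 ht5⟩
    · refine ⟨∅, ?_, fun h1 => absurd h1 hα⟩
      rw [card_empty, Nat.cast_zero]
      have := h.hm0
      positivity
  choose Ex hEx1 hEx2 using hexr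
  set Y : ℕ := q / 4 with hY
  set Zb : Finset ℕ := (Icc 1 A).filter (fun a => a.Coprime W ∧ Sg w ((t * a : ℕ) : ℤ) ≤ ε ∧
        ∀ v : ℕ, X < W * v → W * (v + X / W / 2 + 1) ≤ 2 * X →
          ∑ s ∈ range (X / W / 2), nu ((κ * a) % W + W * (v + s)) * nu ((κ * a) % W + W * (v + s) + t * a) <
            ((X / W / 2 : ℕ) : ℝ) / 2 * ((W : ℝ) / (Nat.totient W : ℝ)) ^ 2) with hZb
  set Z1 : Finset ℕ := (Icc 1 A).filter (fun a => ((κ * a : ℕ) : ZMod W) ∈ B) with hZ1
  set Z2 : Finset ℕ := (Icc 1 A).filter (fun a => (((κ + t) * a : ℕ) : ZMod W) ∈ B) with hZ2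
  set Z3 : Finset ℕ := (Icc 1 A).filter (fun a => ∀ u < Y, (![q + 1 + u, q + 1 + u + ((κ * (a % W)) % W + t * a) / W] : Fin 2 → ℕ) ∈ Ex (a % W)) with hZ3
  have hφ0 : (0 : ℝ) < Nat.totient W := by exact_mod_cast Nat.totient_pos.2 hWpos
  have hsub : Zb ⊆ Z1 ∪ Z2 ∪ Z3 := by
    intro a ha
    rw [hZb, Finset.mem_filter] at ha
    obtain ⟨haA, haW, haS, hav⟩ := ha
    have ha1 := Finset.mem_Icc.1 haA
    by_contra hcon
    have hn1 : ((κ * a : ℕ) : ZMod W) ∉ B := fun h1 =>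
      hcon (Finset.mem_union_left _ (Finset.mem_union_left _ (Finset.mem_filter.2 ⟨haA, h1⟩)))
    have hn2 : (((κ + t) * a : ℕ) : ZMod W) ∉ B := fun h1 =>
      hcon (Finset.mem_union_left _ (Finset.mem_union_right _ (Finset.mem_filter.2 ⟨haA, h1⟩)))
    have hn3 : ¬ ∀ u < Y, (![q + 1 + u, q + 1 + u + ((κ * (a % W)) % W + t * a) / W] : Fin 2 → ℕ) ∈ Ex (a % W) :=
      fun h1 => hcon (Finset.mem_union_right _ (Finset.mem_filter.2 ⟨haA, h1⟩))
    push Not at hn3
    obtain ⟨u, hu, hnot⟩ := hn3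
    have hta : t * a ≤ X := (Nat.mul_le_mul_left t ha1.2).trans htA
    have hta1 : 1 ≤ t * a := Nat.mul_pos ht ha1.1
    set b : ℕ := (κ * (a % W)) % W with hb
    have hbW : b < W := Nat.mod_lt _ hWpos
    have hb' : b = (κ * a) % W := by rw [hb, Nat.mul_mod_mod]
    have hr1 : ((κ + t) * (a % W)) % W = (b + t * a) % W := by
      rw [hb', Nat.mul_mod_mod, Nat.mod_add_mod, Nat.add_mul]
    set v : ℕ := q + 1 + u with hv
    set g : ℕ := (b + t * a) / W with hg
    have hgm : (b + t * a) % W + W * g = b + t * a := Nat.mod_add_div _ _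
    have hg2 : g ≤ q + 1 := by
      have h3 : g ≤ (W + X) / W := Nat.div_le_div_right (by omega)
      have h4 : (W + X) / W = 1 + X / W := by
        rw [Nat.add_div_left _ hWpos]
        omega
      rw [h4] at h3
      omega
    have e0 : ∀ s, b + W * (s + v) = b + W * (v + s) := fun s => by rw [Nat.add_comm s v]
    have e1 : ∀ s, (b + t * a) % W + W * (s + (v + g)) = b + W * (v + s) + t * a := by
      intro s
      rw [Nat.mul_add W s (v + g), Nat.mul_add W v g, Nat.mul_add W v s]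
      omega
    have hαW : (a % W).Coprime W := by
      unfold Nat.Coprime
      rw [← Nat.gcd_rec, Nat.gcd_comm]
      exact haW
    have hc1 : ((κ * (a % W) : ℕ) : ZMod W) ∉ B := by
      have e : ((κ * (a % W) : ℕ) : ZMod W) = ((κ * a : ℕ) : ZMod W) := by
        push_cast
        rw [ZMod.natCast_mod]
      rw [e]
      exact hn1
    have hc2 : (((κ + t) * (a % W) : ℕ) : ZMod W) ∉ B := by
      have e : (((κ + t) * (a % W) : ℕ) : ZMod W) = (((κ + t) * a : ℕ) : ZMod W) := by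
        push_cast
        rw [ZMod.natCast_mod]
      rw [e]
      exact hn2
    have hq4 : 4 * (q / 4) ≤ q := Nat.mul_div_le q 4
    have hqq2 : 2 * (q / 2) ≤ q := Nat.mul_div_le q 2
    have hW3 : W * (q / 4) * 4 ≤ X := by
      calc W * (q / 4) * 4 = W * (4 * (q / 4)) := by ring
        _ ≤ W * q := Nat.mul_le_mul_left W hq4
        _ ≤ X := hWq
    have hW4 : W * (q / 2) * 2 ≤ X := by
      calc W * (q / 2) * 2 = W * (2 * (q / 2)) := by ring
        _ ≤ W * q := Nat.mul_le_mul_left W hqq2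
        _ ≤ X := hWq
    have hvlo : X < W * v := by
      have : W * (q + 1) ≤ W * v := Nat.mul_le_mul_left W (by omega)
      rw [Nat.mul_add, Nat.mul_one] at this
      omega
    have hvhi : W * (v + q / 2 + 1) ≤ 2 * X := by
      have : W * (v + q / 2 + 1) ≤ W * (q + 1 + q / 4 + q / 2 + 1) := Nat.mul_le_mul_left W (by omega)
      have e : W * (q + 1 + q / 4 + q / 2 + 1) = W * q + W * (q / 4) + W * (q / 2) + 2 * W := by ring
      omega
    have key := hEx2 (a % W) ⟨hαW, hc1, hc2⟩ (![v, v + g] : Fin 2 → ℕ) (by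
        intro j
        fin_cases j
        · show v < T
          omega
        · show v + g < T
          omega) hnot (by
        intro i j hij
        simp only at hij
        have hr := hr1
        fin_cases i <;> fin_cases j
        · rfl
        · exfalso
          have h1 : b + W * v = ((κ + t) * (a % W)) % W + W * (v + g) := hij
          rw [hr] at h1
          have h2 := e1 0
          rw [Nat.zero_add, Nat.add_zero] at h2
          omega
        · exfalso
          have h1 : ((κ + t) * (a % W)) % W + W * (v + g) = b + W * v := hij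
          rw [hr] at h1
          have h2 := e1 0
          rw [Nat.zero_add, Nat.add_zero] at h2
          omega
        · rfl) (by
        intro i j
        have hr := hr1
        have h2 := e1 0
        rw [Nat.zero_add, Nat.add_zero] at h2
        have hS0 : Sg w 0 ≤ ε := by
          unfold Sg
          simpa using hε0
        fin_cases i <;> fin_cases j
        · show Sg w (((b + W * v : ℕ) : ℤ) - (b + W * v : ℕ)) ≤ ε
          rw [sub_self]
          exact hS0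
        · show Sg w (((b + W * v : ℕ) : ℤ) - (((κ + t) * (a % W)) % W + W * (v + g) : ℕ)) ≤ ε
          rw [hr, h2]
          have e : ((b + W * v : ℕ) : ℤ) - (b + W * v + t * a : ℕ) = -((t * a : ℕ) : ℤ) := by push_cast; ring
          rw [e]
          unfold Sg at haS ⊢
          rw [Int.natAbs_neg]
          exact haS
        · show Sg w (((((κ + t) * (a % W)) % W + W * (v + g) : ℕ) : ℤ) - (b + W * v : ℕ)) ≤ ε
          rw [hr, h2]
          have e : ((b + W * v + t * a : ℕ) : ℤ) - (b + W * v : ℕ) = ((t * a : ℕ) : ℤ) := by push_cast; ring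
          rw [e]
          exact haS
        · show Sg w (((((κ + t) * (a % W)) % W + W * (v + g) : ℕ) : ℤ) - (((κ + t) * (a % W)) % W + W * (v + g) : ℕ)) ≤ ε
          rw [sub_self]
          exact hS0) (by
        intro s hs j
        have hr := hr1
        have hlo : W * v ≤ W * (v + s) := Nat.mul_le_mul_left W (by omega)
        have hhi : W * (v + s) ≤ W * (v + q / 2 + 1) := Nat.mul_le_mul_left W (by omega)
        fin_cases j
        · show ω (b + W * (s + v)) = 1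
          rw [e0 s]
          apply hone <;> omega
        · show ω (((κ + t) * (a % W)) % W + W * (s + (v + g))) = 1
          rw [hr, e1 s]
          apply hone <;> omega)
    have hprod : ∀ s ∈ range (q / 2), ∏ j : Fin K, FFc W c ((![(κ * (a % W)) % W, ((κ + t) * (a % W)) % W] : Fin 2 → ℕ) j) (s + (![v, v + g] : Fin 2 → ℕ) j) =
        ((Nat.totient W : ℝ) / W) ^ 2 * (nu ((κ * a) % W + W * (v + s)) * nu ((κ * a) % W + W * (v + s) + t * a)) := by
      intro s hs
      have hs' := Finset.mem_range.1 hs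
      have hlo : W * v ≤ W * (v + s) := Nat.mul_le_mul_left W (by omega)
      have hhi : W * (v + s) ≤ W * (v + q / 2 + 1) := Nat.mul_le_mul_left W (by omega)
      have h1 : ∏ j : Fin K, FFc W c ((![(κ * (a % W)) % W, ((κ + t) * (a % W)) % W] : Fin 2 → ℕ) j) (s + (![v, v + g] : Fin 2 → ℕ) j) =
          FFc W c b (s + v) * FFc W c (((κ + t) * (a % W)) % W) (s + (v + g)) := Fin.prod_univ_two _
      rw [h1]
      unfold FFc
      rw [hr1, e1 s, e0 s, ← hb']
      have h2 : ω (b + W * (v + s)) = 1 := by apply hone <;> omega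
      have h3 : ω (b + W * (v + s) + t * a) = 1 := by apply hone <;> omega
      rw [hc]
      simp only
      rw [h2, h3]
      ring
    rw [Finset.sum_congr rfl hprod, ← Finset.mul_sum] at key
    have key2 := (abs_le.1 key).1
    have hlt := hav v hvlo (by rw [← hq]; exact hvhi)
    rw [← hq] at hlt
    have hq2r : (q : ℝ) / 2 - 1 ≤ ((q / 2 : ℕ) : ℝ) := by
      have : q ≤ 2 * (q / 2) + 1 := by omega
      have h1 : (q : ℝ) ≤ 2 * ((q / 2 : ℕ) : ℝ) + 1 := by exact_mod_cast this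
      linarith
    have hqr : (1000 : ℝ) ≤ q := by exact_mod_cast hq20
    have hlow : ((q / 2 : ℕ) : ℝ) / 2 ≤ ((Nat.totient W : ℝ) / W) ^ 2 * ∑ s ∈ range (q / 2), nu ((κ * a) % W + W * (v + s)) * nu ((κ * a) % W + W * (v + s) + t * a) := by
      linarith
    have hup : ((Nat.totient W : ℝ) / W) ^ 2 * ∑ s ∈ range (q / 2), nu ((κ * a) % W + W * (v + s)) * nu ((κ * a) % W + W * (v + s) + t * a) <
        ((Nat.totient W : ℝ) / W) ^ 2 * (((q / 2 : ℕ) : ℝ) / 2 * ((W : ℝ) / (Nat.totient W : ℝ)) ^ 2) :=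
      mul_lt_mul_of_pos_left hlt (by positivity)
    have e5 : ((Nat.totient W : ℝ) / W) ^ 2 * (((q / 2 : ℕ) : ℝ) / 2 * ((W : ℝ) / (Nat.totient W : ℝ)) ^ 2) = ((q / 2 : ℕ) : ℝ) / 2 := by
      field_simp
    rw [e5] at hup
    linarith
  have hZc : ∀ (κ' : ℕ) (Z : Finset ℕ), κ'.Coprime W → (∀ a ∈ Z, 1 ≤ a ∧ a ≤ A ∧ ((κ' * a : ℕ) : ZMod W) ∈ B) → (Z.card : ℝ) ≤ 2 * A / l ^ D₁ := by
    intro κ' Z hκ' hZ
    have h1 := bad_cls B hκ' hWA Z hZ
    rw [le_div_iff₀ (by positivity)]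
    have h2 : (Z.card : ℝ) * l ^ D₁ * W ≤ 2 * A * W := by
      calc (Z.card : ℝ) * l ^ D₁ * W = (Z.card * W) * l ^ D₁ := by ring
        _ ≤ (2 * A * B.card) * l ^ D₁ := mul_le_mul_of_nonneg_right h1 (by positivity)
        _ = 2 * A * (B.card * l ^ D₁) := by ring
        _ ≤ 2 * A * W := mul_le_mul_of_nonneg_left hBD (by positivity)
    exact le_of_mul_le_mul_right h2 hW0
  have hc1 : (Z1.card : ℝ) ≤ 2 * A / l ^ D₁ := hZc κ Z1 hκ (by
    intro a ha
    rw [hZ1, Finset.mem_filter] at ha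
    exact ⟨(Finset.mem_Icc.1 ha.1).1, (Finset.mem_Icc.1 ha.1).2, ha.2⟩)
  have hc2 : (Z2.card : ℝ) ≤ 2 * A / l ^ D₁ := hZc (κ + t) Z2 hκt (by
    intro a ha
    rw [hZ2, Finset.mem_filter] at ha
    exact ⟨(Finset.mem_Icc.1 ha.1).1, (Finset.mem_Icc.1 ha.1).2, ha.2⟩)
  have hMle : M ≤ (T : ℝ) ^ 2 * Real.exp (-(l / 200)) := by
    have h1 : m₀ ^ 2 ≤ (T * Real.exp (-(l / 200))) ^ 2 := pow_le_pow_left₀ h.hm0 h.hm1 2
    have h2 : B₀ ^ (2 * K) ≤ Real.exp (l / 1000) := (pow_le_pow_right₀ h.hB1 (by omega)).trans h.hBD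
    have e : M = (4 * ((2 : ℕ) : ℝ) * l ^ (c₁ + 4)) * B₀ ^ (2 * K) * m₀ ^ 2 := by
      rw [hM, hK2, ha, ha₁, hτ]
      have e2 : K - 1 = 1 := rfl
      rw [e2]
      have hl0' : l ≠ 0 := hl0.ne'
      have hT0' : (T : ℝ) ≠ 0 := hT0.ne'
      field_simp
      ring
    rw [e]
    calc (4 * ((2 : ℕ) : ℝ) * l ^ (c₁ + 4)) * B₀ ^ (2 * K) * m₀ ^ 2 ≤ Real.exp (l / 250) * Real.exp (l / 1000) * (T * Real.exp (-(l / 200))) ^ 2 := by
          apply mul_le_mul _ h1 (by positivity) (by positivity)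
          exact mul_le_mul hl6 h2 (by positivity) (Real.exp_pos _).le
      _ = (T : ℝ) ^ 2 * (Real.exp (l / 250) * Real.exp (l / 1000) * (Real.exp (-(l / 200)) * Real.exp (-(l / 200)))) := by ring
      _ = (T : ℝ) ^ 2 * Real.exp (-(l / 200)) := by
          rw [← Real.exp_add, ← Real.exp_add, ← Real.exp_add]
          congr 2
          ring
  have hc3 : (Z3.card : ℝ) ≤ 20000 * X * Real.exp (-(l / 200)) := by
    have h1 := cn1 (W := W) (t := t) (Y := Y) (v := q + 1) hWpos ht (fun α => (κ * α) % W) (fun α => Nat.mod_lt _ hWpos) Ex M hEx1 Z3 (by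
      intro a ha u hu
      rw [hZ3, Finset.mem_filter] at ha
      exact ha.2 u hu)
    have hYq : (q : ℝ) ≤ 5 * Y := by
      have : q ≤ 5 * Y := by omega
      exact_mod_cast this
    have h2 : (Z3.card : ℝ) * q ≤ (20000 * X * Real.exp (-(l / 200))) * q := by
      calc (Z3.card : ℝ) * q ≤ Z3.card * (5 * Y) := mul_le_mul_of_nonneg_left hYq (Nat.cast_nonneg _)
        _ = 5 * (Z3.card * Y) := by ring
        _ ≤ 5 * (W * M) := by linarith
        _ ≤ 5 * (W * ((T : ℝ) ^ 2 * Real.exp (-(l / 200)))) := by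
            have := mul_le_mul_of_nonneg_left hMle hW0.le
            linarith
        _ = 5 * (W * T) * T * Real.exp (-(l / 200)) := by ring
        _ ≤ 5 * (13 * X) * (14 * q) * Real.exp (-(l / 200)) := by
            apply mul_le_mul_of_nonneg_right _ (Real.exp_pos _).le
            apply mul_le_mul (by linarith) hTq hT0.le (by positivity)
        _ = (910 * X * Real.exp (-(l / 200))) * q := by ring
        _ ≤ (20000 * X * Real.exp (-(l / 200))) * q := by
            apply mul_le_mul_of_nonneg_right _ hq0.le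
            apply mul_le_mul_of_nonneg_right _ (Real.exp_pos _).le
            linarith
    exact le_of_mul_le_mul_right h2 hq0
  have hcard : (Zb.card : ℝ) ≤ Z1.card + Z2.card + Z3.card := by
    have h1 := (card_le_card hsub).trans ((card_union_le _ _).trans (Nat.add_le_add_right (card_union_le _ _) _))
    exact_mod_cast h1
  have e6 : (4 : ℝ) * A / l ^ D₁ = 2 * A / l ^ D₁ + 2 * A / l ^ D₁ := by ring
  rw [e6]
  linarith

end Pool.Agent.J4H81.GQ
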