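import Pool.Agent.J4H81.GQ.P4
import Pool.Agent.J4H81.GQ.Stm
import Pool.Agent.H390R2.Mertens

/-!
# Project GQ: the gaps of one progression
-/

set_option autoImplicit false

namespace Pool.Agent.J4H81.GQ

open Finset
open Pool.Agent.J4H81.PT Pool.Agent.J4H32.MV

/-- Mertens, the lower bound -/
theorem log_le_ratio (w : ℕ) : Real.log ((w + 1 : ℕ) : ℝ) ≤ (primorial w : ℝ) / (Nat.totient (primorial w) : ℝ) := by
  have hW : (0 : ℝ) < primorial w := by exact_mod_cast primorial_pos w
  have h1 := Pool.Agent.H390R2.euler_lower (w + 1) (by omega)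
  have h2 := Nat.totient_eq_mul_prod_factors (primorial w)
  rw [primeFactors_primorial] at h2
  have h3 : ((Nat.totient (primorial w) : ℕ) : ℝ) = (primorial w : ℝ) * ∏ p ∈ Nat.primesLE w, (1 - (p : ℝ)⁻¹) := by
    have := congrArg (fun x : ℚ => (x : ℝ)) h2
    push_cast at this
    exact this
  have hpos : 0 < ∏ p ∈ Nat.primesLE w, (1 - (p : ℝ)⁻¹) := by
    apply prod_pos
    intro p hp
    have hp' : (1 : ℝ) < p := by exact_mod_cast (Nat.prime_of_mem_primesLE hp).one_lt
    have := inv_lt_one_of_one_lt₀ hp'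
    linarith
  rw [h3]
  refine h1.trans (le_of_eq ?_)
  rw [prod_inv_distrib]
  have e : Nat.primesBelow (w + 1) = Nat.primesLE w := rfl
  rw [e]
  field_simp

/-- at most one prime above `w` divides `m ≤ w ^ 2` -/
theorem card_big {w m : ℕ} (hm0 : 0 < m) (hm : m ≤ w ^ 2) : (m.primeFactors.filter (fun p => w < p)).card ≤ 1 := by
  rw [card_le_one]
  intro p hp q hq
  rw [mem_filter, Nat.mem_primeFactors] at hp hq
  by_contra hne
  have hco : p.Coprime q := (Nat.coprime_primes hp.1.1 hq.1.1).2 hne
  have h1 : p * q ∣ m := hco.mul_dvd_of_dvd_of_dvd hp.1.2.1 hq.1.2.1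
  have h2 := Nat.le_of_dvd hm0 h1
  have h3 : (w + 1) * (w + 1) ≤ p * q := Nat.mul_le_mul hp.2 hq.2
  nlinarith

theorem card_big2 {w m a : ℕ} (hm0 : 0 < m) (hm : m ≤ w ^ 2) (ha : a.Prime) : ((m * a).primeFactors.filter (fun p => w < p)).card ≤ 2 := by
  rw [Nat.primeFactors_mul hm0.ne' ha.ne_zero, filter_union]
  refine (card_union_le _ _).trans ?_
  have h1 := card_big hm0 hm
  have h2 : (a.primeFactors.filter (fun p => w < p)).card ≤ 1 := by
    refine (card_filter_le _ _).trans ?_
    rw [ha.primeFactors, card_singleton]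
  omega

theorem Sg_small {w t a : ℕ} (ht : 0 < t) (ht2 : t ≤ w ^ 2) (ha : a.Prime) (haw : w < a) (hw : 0 < w) : Sg w ((t * a : ℕ) : ℤ) ≤ 2 / w := by
  unfold Sg
  rw [Int.natAbs_natCast]
  have hw0 : (0 : ℝ) < w := by exact_mod_cast hw
  calc ∑ p ∈ (t * a).primeFactors.filter (fun p => w < p), 1 / (p : ℝ) ≤ ∑ p ∈ (t * a).primeFactors.filter (fun p => w < p), 1 / (w : ℝ) := by
        apply sum_le_sum
        intro p hp
        have h1 : (w : ℝ) ≤ p := by exact_mod_cast (mem_filter.1 hp).2.le
        exact one_div_le_one_div_of_le hw0 h1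
    _ = ((t * a).primeFactors.filter (fun p => w < p)).card * (1 / (w : ℝ)) := by rw [sum_const, nsmul_eq_mul]
    _ ≤ 2 * (1 / (w : ℝ)) := by
        apply mul_le_mul_of_nonneg_right _ (by positivity)
        exact_mod_cast card_big2 ht ht2 ha
    _ = 2 / w := by ring

open Classical in
/-- the primes `p` in `(X, 2 X]` such that `p + t a` is the next prime after `p` in the progression `p, p + a, p + 2 a, ...` -/
noncomputable def GapP (X a t : ℕ) : Finset ℕ :=
  (Ioc X (2 * X)).filter (fun p => p.Prime ∧ (p + t * a).Prime ∧ ∀ j, 0 < j → j < t → ¬ (p + j * a).Prime)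

open Classical in
theorem lemA {C : ℝ} {X w v t κ a N : ℕ} (hNX : N ≤ X)
    (hT : ∀ r : Fin 3 → ℕ, (∀ i, (r i).Coprime (primorial w)) →
      (∀ i j, i ≠ j → r i ≠ r j ∧ (((r i : ℤ) - r j).natAbs.primeFactors.filter (fun p => w < p)).card ≤ 5) →
      (((range N).filter (fun s => ∀ i, (r i + primorial w * s).Prime ∧ N < r i + primorial w * s)).card : ℝ) ≤ C)
    (hv : X < primorial w * v) (hv2 : primorial w * (v + N + 1) ≤ 2 * X)
    (hsum : (N : ℝ) / 2 * ((primorial w : ℝ) / (Nat.totient (primorial w) : ℝ)) ^ 2 ≤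
      ∑ s ∈ range N, nu ((κ * a) % primorial w + primorial w * (v + s)) * nu ((κ * a) % primorial w + primorial w * (v + s) + t * a))
    (hap : a.Prime) (haw : w < a) (htX : t * a ≤ X) (hκ : κ.Coprime (primorial w)) (hκt : (κ + t).Coprime (primorial w))
    (ht : t ≤ w ^ 2) (ht0 : 0 < t) (hwX : w < X) :
    (N : ℝ) / 2 * ((primorial w : ℝ) / (Nat.totient (primorial w) : ℝ)) ^ 2 / Real.log (3 * X) ^ 2 -
      ((Ioo 0 t).filter (fun j => (κ + j).Coprime (primorial w))).card * C ≤ ((GapP X a t).card : ℝ) := by
  set W : ℕ := primorial w with hW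
  have hWpos : 0 < W := primorial_pos w
  set b : ℕ := (κ * a) % W with hb
  have hbW : b < W := Nat.mod_lt _ hWpos
  set f : ℕ → ℕ := fun s => b + W * (v + s) with hf
  have haW : a.Coprime W := by
    rw [Nat.coprime_comm, hW]
    apply Nat.Coprime.symm
    rw [Nat.Prime.coprime_iff_not_dvd hap]
    intro h1
    have h2 : a ∈ (primorial w).primeFactors := Nat.mem_primeFactors.2 ⟨hap, h1, (primorial_pos w).ne'⟩
    rw [primeFactors_primorial] at h2
    have := Nat.le_of_mem_primesLE h2
    omega
  set G : Finset ℕ := (range N).filter (fun s => (f s).Prime ∧ (f s + t * a).Prime) with hG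
  set Sv : Finset ℕ := (Ioo 0 t).filter (fun j => (κ + j).Coprime W) with hSv
  set T : ℕ → Finset ℕ := fun j => (range N).filter (fun s => (f s).Prime ∧ (f s + j * a).Prime ∧ (f s + t * a).Prime) with hTd
  have hf1 : ∀ s, X < f s := by
    intro s
    have : W * v ≤ W * (v + s) := Nat.mul_le_mul_left W (by omega)
    show X < b + W * (v + s)
    omega
  have hf2 : ∀ s < N, f s ≤ 2 * X := by
    intro s hs
    have h1 : W * (v + s + 1) ≤ W * (v + N + 1) := Nat.mul_le_mul_left W (by omega)
    rw [Nat.mul_add W (v + s) 1, Nat.mul_one] at h1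
    show b + W * (v + s) ≤ 2 * X
    omega
  have hL0 : 0 < Real.log (3 * X) := by
    apply Real.log_pos
    have : (1 : ℝ) ≤ X := by
      have : 1 ≤ X := by omega
      exact_mod_cast this
    linarith
  -- many pairs
  have hGc : (N : ℝ) / 2 * ((W : ℝ) / (Nat.totient W : ℝ)) ^ 2 / Real.log (3 * X) ^ 2 ≤ G.card := by
    rw [div_le_iff₀ (by positivity)]
    refine hsum.trans ?_
    calc ∑ s ∈ range N, nu (b + W * (v + s)) * nu (b + W * (v + s) + t * a) ≤ ∑ s ∈ range N, (if (f s).Prime ∧ (f s + t * a).Prime then Real.log (3 * X) ^ 2 else 0) := by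
          apply sum_le_sum
          intro s hs
          have hs' := Finset.mem_range.1 hs
          show nu (f s) * nu (f s + t * a) ≤ _
          unfold nu
          by_cases h1 : (f s).Prime
          · by_cases h2 : (f s + t * a).Prime
            · rw [if_pos h1, if_pos h2, if_pos ⟨h1, h2⟩, sq]
              have g1 : (0 : ℝ) < f s := by exact_mod_cast h1.pos
              have g2 : (0 : ℝ) < ((f s + t * a : ℕ) : ℝ) := by exact_mod_cast h2.pos
              have g3 : ((f s : ℕ) : ℝ) ≤ 3 * X := by
                have := hf2 s hs'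
                have h3 : f s ≤ 3 * X := by omega
                exact_mod_cast h3
              have g4 : ((f s + t * a : ℕ) : ℝ) ≤ 3 * X := by
                have := hf2 s hs'
                have h3 : f s + t * a ≤ 3 * X := by omega
                exact_mod_cast h3
              exact mul_le_mul (Real.log_le_log g1 g3) (Real.log_le_log g2 g4) (Real.log_natCast_nonneg _) hL0.le
            · rw [if_neg h2, mul_zero, if_neg (fun h => h2 h.2)]
          · rw [if_neg h1, zero_mul, if_neg (fun h => h1 h.1)]
      _ = G.card * Real.log (3 * X) ^ 2 := by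
          rw [← sum_filter, sum_const, nsmul_eq_mul]
  -- few triples
  have hTc : ∀ j ∈ Sv, ((T j).card : ℝ) ≤ C := by
    intro j hj
    rw [hSv, mem_filter, mem_Ioo] at hj
    obtain ⟨⟨hj0, hjt⟩, hjc⟩ := hj
    have hmod : ∀ i, (κ + i).Coprime W → (b + W * v + i * a).Coprime W := by
      intro i hi
      have h1 : (b + W * v + i * a) ≡ (κ + i) * a [MOD W] := by
        rw [Nat.add_mul]
        apply Nat.ModEq.add_right
        have h2 : b + W * v ≡ b [MOD W] := by
          unfold Nat.ModEq
          rw [Nat.add_mul_mod_self_left]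
        exact h2.trans (Nat.mod_modEq _ _)
      have h3 : ((κ + i) * a).Coprime W := Nat.Coprime.mul_left hi haW
      unfold Nat.Coprime at h3 ⊢
      rw [h1.gcd_eq]
      exact h3
    have hsub : T j ⊆ (range N).filter (fun s => ∀ i : Fin 3, ((![b + W * v, b + W * v + j * a, b + W * v + t * a] : Fin 3 → ℕ) i + W * s).Prime ∧
        N < (![b + W * v, b + W * v + j * a, b + W * v + t * a] : Fin 3 → ℕ) i + W * s) := by
      intro s hs
      rw [hTd, mem_filter] at hs
      rw [mem_filter]
      refine ⟨hs.1, ?_⟩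
      obtain ⟨_, p1, p2, p3⟩ := hs
      have hx := hf1 s
      have e1 : b + W * v + W * s = f s := by
        show _ = b + W * (v + s)
        rw [Nat.mul_add W v s]
        omega
      intro i
      fin_cases i
      · show (b + W * v + W * s).Prime ∧ N < b + W * v + W * s
        rw [e1]
        exact ⟨p1, by omega⟩
      · show (b + W * v + j * a + W * s).Prime ∧ N < b + W * v + j * a + W * s
        have e2 : b + W * v + j * a + W * s = f s + j * a := by omega
        rw [e2]
        exact ⟨p2, by omega⟩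
      · show (b + W * v + t * a + W * s).Prime ∧ N < b + W * v + t * a + W * s
        have e2 : b + W * v + t * a + W * s = f s + t * a := by omega
        rw [e2]
        exact ⟨p3, by omega⟩
    have h0 : (((T j).card : ℕ) : ℝ) ≤ (((range N).filter (fun s => ∀ i : Fin 3, ((![b + W * v, b + W * v + j * a, b + W * v + t * a] : Fin 3 → ℕ) i + W * s).Prime ∧
        N < (![b + W * v, b + W * v + j * a, b + W * v + t * a] : Fin 3 → ℕ) i + W * s)).card : ℝ) := by
      exact_mod_cast card_le_card hsub
    refine h0.trans (hT _ ?_ ?_)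
    · intro i
      fin_cases i
      · show (b + W * v).Coprime W
        have := hmod 0 hκ
        rwa [Nat.zero_mul, Nat.add_zero] at this
      · exact hmod j hjc
      · exact hmod t hκt
    · have hpa := hap.pos
      have hja : 0 < j * a := Nat.mul_pos hj0 hpa
      have htja : j * a < t * a := Nat.mul_lt_mul_of_pos_right hjt hpa
      have htj : (t - j) * a = t * a - j * a := Nat.sub_mul t j a
      have k1 : ((j * a).primeFactors.filter (fun p => w < p)).card ≤ 5 := (card_big2 hj0 (by omega) hap).trans (by norm_num)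
      have k2 : ((t * a).primeFactors.filter (fun p => w < p)).card ≤ 5 := (card_big2 ht0 ht hap).trans (by norm_num)
      have k3 : (((t - j) * a).primeFactors.filter (fun p => w < p)).card ≤ 5 := (card_big2 (by omega) (by omega) hap).trans (by norm_num)
      have gen : ∀ x y m : ℕ, (x + m = y ∨ y + m = x) → 0 < m → (m.primeFactors.filter (fun p => w < p)).card ≤ 5 →
          x ≠ y ∧ ((((x : ℕ) : ℤ) - (y : ℕ)).natAbs.primeFactors.filter (fun p => w < p)).card ≤ 5 := by
        intro x y m hxy hm hk
        have e : (((x : ℕ) : ℤ) - (y : ℕ)).natAbs = m := by omega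
        rw [e]
        exact ⟨by omega, hk⟩
      intro i j' hij
      fin_cases i <;> fin_cases j'
      · exact absurd rfl hij
      · exact gen _ _ (j * a) (Or.inl rfl) hja k1
      · exact gen _ _ (t * a) (Or.inl rfl) (by omega) k2
      · exact gen _ _ (j * a) (Or.inr rfl) hja k1
      · exact absurd rfl hij
      · refine gen _ _ ((t - j) * a) (Or.inl ?_) (by omega) k3
        show b + W * v + j * a + (t - j) * a = b + W * v + t * a
        omega
      · exact gen _ _ (t * a) (Or.inr rfl) (by omega) k2
      · refine gen _ _ ((t - j) * a) (Or.inr ?_) (by omega) k3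
        show b + W * v + j * a + (t - j) * a = b + W * v + t * a
        omega
      · exact absurd rfl hij
  -- the rest
  have hcl : ∀ s j, (f s + j * a).Prime → (κ + j).Coprime W := by
    intro s j hp
    have h1 : f s + j * a ≡ (κ + j) * a [MOD W] := by
      rw [Nat.add_mul]
      apply Nat.ModEq.add_right
      have h2 : f s ≡ b [MOD W] := by
        show b + W * (v + s) ≡ b [MOD W]
        unfold Nat.ModEq
        rw [Nat.add_mul_mod_self_left]
      exact h2.trans (Nat.mod_modEq _ _)
    have h2 : (f s + j * a).Coprime W := by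
      rw [hW, Nat.Prime.coprime_iff_not_dvd hp]
      intro h3
      have h4 : f s + j * a ∈ (primorial w).primeFactors := Nat.mem_primeFactors.2 ⟨hp, h3, (primorial_pos w).ne'⟩
      rw [primeFactors_primorial] at h4
      have h5 := Nat.le_of_mem_primesLE h4
      have := hf1 s
      omega
    have h3 : ((κ + j) * a).Coprime W := by
      unfold Nat.Coprime at h2 ⊢
      rw [← h1.gcd_eq]
      exact h2
    exact Nat.Coprime.coprime_mul_right h3
  have hmap : (G \ Sv.biUnion T).card ≤ (GapP X a t).card := by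
    apply card_le_card_of_injOn f
    · intro s hs
      rw [Finset.mem_coe, mem_sdiff] at hs
      obtain ⟨hs1, hs2⟩ := hs
      rw [hG, mem_filter] at hs1
      obtain ⟨hsr, p1, p2⟩ := hs1
      rw [Finset.mem_coe]
      unfold GapP
      rw [mem_filter]
      refine ⟨Finset.mem_Ioc.2 ⟨hf1 s, hf2 s (Finset.mem_range.1 hsr)⟩, p1, p2, ?_⟩
      intro j hj0 hjt hp
      apply hs2
      rw [mem_biUnion]
      refine ⟨j, ?_, ?_⟩
      · rw [hSv, mem_filter, mem_Ioo]
        exact ⟨⟨hj0, hjt⟩, hcl s j hp⟩
      · rw [hTd, mem_filter]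
        exact ⟨hsr, p1, hp, p2⟩
    · intro s _ s' _ h
      have h1 : b + W * (v + s) = b + W * (v + s') := h
      have h2 : W * (v + s) = W * (v + s') := by omega
      have h3 := Nat.eq_of_mul_eq_mul_left hWpos h2
      omega
  have h1 : G.card ≤ (G \ Sv.biUnion T).card + (Sv.biUnion T).card := by
    have := card_le_card_sdiff_add_card (s := G) (t := Sv.biUnion T)
    exact this
  have h2 : ((Sv.biUnion T).card : ℝ) ≤ Sv.card * C := by
    have g1 : ((Sv.biUnion T).card : ℝ) ≤ ∑ j ∈ Sv, ((T j).card : ℝ) := by exact_mod_cast card_biUnion_le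
    refine g1.trans ?_
    calc ∑ j ∈ Sv, ((T j).card : ℝ) ≤ ∑ j ∈ Sv, C := sum_le_sum hTc
      _ = Sv.card * C := by rw [sum_const, nsmul_eq_mul]
  have h3 : (G.card : ℝ) ≤ ((G \ Sv.biUnion T).card : ℝ) + ((Sv.biUnion T).card : ℝ) := by exact_mod_cast h1
  have h4 : ((G \ Sv.biUnion T).card : ℝ) ≤ ((GapP X a t).card : ℝ) := by exact_mod_cast hmap
  linarith

end Pool.Agent.J4H81.GQ
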