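import Mathlib

/-!
# Project GQ: real analysis for the last step
-/

set_option autoImplicit false

namespace Pool.Agent.J4H81.GQ

open Finset Filter

theorem an8 {L w u u3 u4 lw l2 l3 CK CT c t Ns N R Lx LN : ℝ}
    (hCK : 0 < CK) (hCT : 0 < CT) (hc0 : 0 < c) (hc : 2048 * (CK * CT) * c ≤ 1)
    (hL0 : 0 < L) (hw0 : 0 < w)
    (hlw0 : 0 < lw) (hulw : u ≤ 4 * lw) (hu0 : 0 ≤ u)
    (hl2 : 0 ≤ l2) (hl2u : l2 ≤ u3) (hl22 : l2 ^ 2 ≤ lw)
    (hl3 : 1 ≤ l3) (hu4 : u4 ≤ 2 * l3) (hu40 : 0 ≤ u4) (hu3 : 0 < u3)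
    (hwL : 256 * (CK * CT) * w ≤ L)
    (ht : t ≤ c * (L * u * u4 / u3 ^ 2))
    (hNs : Ns ≤ CK * (t + w) * l2 ^ 2 / (lw ^ 2 * l3)) (hNs0 : 0 ≤ Ns)
    (hN : 0 ≤ N) (hR : lw ≤ R) (hLx : 0 < Lx) (hLx2 : Lx ≤ 2 * L) (hLN : L ≤ 2 * LN) :
    Ns * (CT * N * (lw / LN) ^ 3) ≤ N / 4 * R ^ 2 / Lx ^ 2 := by
  have hLN0 : 0 < LN := by linarith
  have hl30 : 0 < l3 := by linarith
  have hD : 0 < lw ^ 2 * l3 := by positivity
  have hl2u2 : l2 ^ 2 ≤ u3 ^ 2 := pow_le_pow_left₀ hl2 hl2u 2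
  -- the number of survivors
  have h1 : t * l2 ^ 2 ≤ c * (L * (4 * lw) * (2 * l3)) := by
    calc t * l2 ^ 2 ≤ c * (L * u * u4 / u3 ^ 2) * l2 ^ 2 := mul_le_mul_of_nonneg_right ht (by positivity)
      _ ≤ c * (L * u * u4 / u3 ^ 2) * u3 ^ 2 := mul_le_mul_of_nonneg_left hl2u2 (by positivity)
      _ = c * (L * u * u4) := by field_simp
      _ ≤ c * (L * (4 * lw) * (2 * l3)) := by
          apply mul_le_mul_of_nonneg_left _ hc0.le
          apply mul_le_mul _ hu4 hu40 (by positivity)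
          exact mul_le_mul_of_nonneg_left hulw hL0.le
  have h2 : w * l2 ^ 2 ≤ w * (lw * l3) := by
    apply mul_le_mul_of_nonneg_left _ hw0.le
    calc l2 ^ 2 ≤ lw := hl22
      _ ≤ lw * l3 := le_mul_of_one_le_right hlw0.le hl3
  have h3 : Ns * (128 * CT * lw) ≤ L := by
    have h4 : Ns * (lw ^ 2 * l3) ≤ CK * (t + w) * l2 ^ 2 := (le_div_iff₀ hD).1 hNs
    have h5 : CK * (t + w) * l2 ^ 2 ≤ CK * (8 * c * (L * lw * l3) + w * (lw * l3)) := by
      have e : CK * (t + w) * l2 ^ 2 = CK * (t * l2 ^ 2 + w * l2 ^ 2) := by ring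
      rw [e]
      apply mul_le_mul_of_nonneg_left _ hCK.le
      linarith
    have h6 : Ns * (128 * CT * lw) * (lw * l3) ≤ L * (lw * l3) := by
      calc Ns * (128 * CT * lw) * (lw * l3) = 128 * CT * (Ns * (lw ^ 2 * l3)) := by ring
        _ ≤ 128 * CT * (CK * (8 * c * (L * lw * l3) + w * (lw * l3))) :=
            mul_le_mul_of_nonneg_left (h4.trans h5) (by positivity)
        _ = (2048 * (CK * CT) * c * L + 256 * (CK * CT) * w) / 2 * (lw * l3) := by ring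
        _ ≤ (1 * L + L) / 2 * (lw * l3) := by
            apply mul_le_mul_of_nonneg_right _ (by positivity)
            have := mul_le_mul_of_nonneg_right hc hL0.le
            linarith
        _ = L * (lw * l3) := by ring
    exact le_of_mul_le_mul_right h6 (by positivity)
  have h7 : (lw / LN) ^ 3 ≤ (2 * lw / L) ^ 3 := by
    apply pow_le_pow_left₀ (by positivity)
    rw [div_le_div_iff₀ hLN0 hL0]
    nlinarith only [hLN, hlw0]
  have h8 : Ns * (CT * N * (lw / LN) ^ 3) ≤ N * lw ^ 2 / (16 * L ^ 2) := by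
    calc Ns * (CT * N * (lw / LN) ^ 3) ≤ Ns * (CT * N * (2 * lw / L) ^ 3) := by
          apply mul_le_mul_of_nonneg_left _ hNs0
          exact mul_le_mul_of_nonneg_left h7 (by positivity)
      _ = (Ns * (128 * CT * lw)) * (N * lw ^ 2 / (16 * L ^ 3)) := by
          field_simp
          ring
      _ ≤ L * (N * lw ^ 2 / (16 * L ^ 3)) := mul_le_mul_of_nonneg_right h3 (by positivity)
      _ = N * lw ^ 2 / (16 * L ^ 2) := by
          field_simp
  refine h8.trans ?_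
  rw [div_le_div_iff₀ (by positivity) (by positivity)]
  have h9 : Lx ^ 2 ≤ (2 * L) ^ 2 := pow_le_pow_left₀ hLx.le hLx2 2
  have h10 : lw ^ 2 ≤ R ^ 2 := pow_le_pow_left₀ hlw0.le hR 2
  calc N * lw ^ 2 * Lx ^ 2 ≤ N * R ^ 2 * (2 * L) ^ 2 := by
        apply mul_le_mul _ h9 (by positivity) (by positivity)
        exact mul_le_mul_of_nonneg_left h10 hN
    _ = N / 4 * R ^ 2 * (16 * L ^ 2) := by ring

theorem ev_exp (C : ℝ) (n : ℕ) {k : ℝ} (hk : 0 < k) : ∀ᶠ l : ℝ in atTop, C * l ^ n ≤ Real.exp (l / k) := by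
  have h1 := (isLittleO_pow_exp_pos_mul_atTop (k := n) (b := 1 / k) (by positivity)).bound (show (0 : ℝ) < 1 / (|C| + 1) by positivity)
  filter_upwards [h1, eventually_ge_atTop (0 : ℝ)] with l hl hl0
  rw [Real.norm_of_nonneg (by positivity), Real.norm_of_nonneg (Real.exp_pos _).le] at hl
  have h2 : C * l ^ n ≤ (|C| + 1) * l ^ n := by
    apply mul_le_mul_of_nonneg_right _ (by positivity)
    linarith [le_abs_self C]
  refine h2.trans ?_
  have h3 : (|C| + 1) * l ^ n ≤ (|C| + 1) * (1 / (|C| + 1) * Real.exp (1 / k * l)) :=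
    mul_le_mul_of_nonneg_left hl (by positivity)
  refine h3.trans (le_of_eq ?_)
  rw [← mul_assoc, mul_one_div_cancel (by positivity), one_mul]
  congr 1
  ring

end Pool.Agent.J4H81.GQ
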