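import Pool.Agent.J4H81.GQ.P5
import Pool.Agent.J4H81.GQ.P6a
import Pool.Agent.J4H32.MV.G5

/-!
# Project GQ: every even number up to Rankin's function is a gap of almost all progressions
-/

set_option autoImplicit false

namespace Pool.Agent.J4H81.GQ

open Finset MeasureTheory Filter
open Pool.Agent.J4H81.PT Pool.Agent.J4H32.MV
open Pool.Agent.J4H81.PT.ZF (NoZ ExZ)

open Classical in
theorem main_gq (hTE : S_TE) (hMD : S_MD) (hMB : S_MB) (hPS : S_PS) (hGD : S_GD2) (hKAP : S_KAP) (hTRI : S_TRI) :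
    ∀ A : ℕ, ∃ c : ℝ, 0 < c ∧ ∀ B : ℕ, ∀ Y₀ : ℝ, ∃ Y : ℝ, Y₀ ≤ Y ∧ ∀ X : ℕ, Y ≤ X → (X : ℝ) ≤ Y ^ (Real.log (Real.log Y) ^ A) →
      ∃ E : Finset ℕ, (E.card : ℝ) ≤ X / Real.log X ^ B ∧
        ∀ a : ℕ, a.Prime → (a : ℝ) ≤ X / Real.log X ^ 2 → a ∉ E → ∀ t : ℕ, 0 < t → 2 ∣ t →
          (t : ℝ) ≤ c * (Real.log X * Real.log (Real.log X) * Real.log (Real.log (Real.log (Real.log X))) / Real.log (Real.log (Real.log X)) ^ 2) →
          X * Real.exp (-(Real.log X / Real.log (Real.log X))) ≤ ((GapP X a t).card : ℝ) := by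
  intro A
  obtain ⟨CK, hCK, y₀, hkap⟩ := hKAP (A + 4)
  obtain ⟨CT, hCT, N₀, htri⟩ := hTRI
  set c : ℝ := min 1 (1 / (2048 * (CK * CT))) with hcdef
  have hc0 : 0 < c := lt_min one_pos (by positivity)
  have hc1 : c ≤ 1 := min_le_left _ _
  have hc2 : 2048 * (CK * CT) * c ≤ 1 := by
    have h1 : c ≤ 1 / (2048 * (CK * CT)) := min_le_right _ _
    rw [le_div_iff₀ (by positivity)] at h1
    linarith
  refine ⟨c, hc0, ?_⟩
  intro B Y₀
  obtain ⟨C, hC0, hps⟩ := hPS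
  obtain ⟨c₀, hc₀, hc₀1, hgs⟩ := Pool.Agent.J4H81.PT.ZF.good_scales
  set D₁ : ℕ := 2 * B + 2 with hD₁
  set c₁ : ℕ := ⌈96 * C⌉₊ with hc₁
  have hc₁C : 4 ^ 2 * (2 * ((2 : ℕ) : ℝ) + 2) * C ≤ c₁ := by
    have h1 : 96 * C ≤ (c₁ : ℝ) := Nat.le_ceil _
    push_cast
    linarith
  set D : ℕ := D₁ + c₁ + 10 with hD
  obtain ⟨A₁, l₁, hA₁, hGD'⟩ := hGD c₀ D hc₀ hc₀1
  obtain ⟨x₀, hx₀⟩ := eventually_atTop.1 ((ev_log 1 2).and (Real.tendsto_log_atTop.eventually (eventually_ge_atTop (3 : ℝ))))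
  obtain ⟨l₂, hl₂⟩ := eventually_atTop.1 ((scale_ev A B (10 : ℝ) A₁ 1).and ((ev_exp 64 4 (k := 700) (by norm_num)).and
    ((ev_exp 80000 (2 * B + 4) (k := 200) (by norm_num)).and ((ev_exp (4 * ((2 : ℕ) : ℝ)) (c₁ + 4) (k := 250) (by norm_num)).and
    ((ev_log (8 * 10 ^ 6 * 3 ^ A) (A + 3)).and (Real.tendsto_log_atTop.eventually (eventually_ge_atTop
      (max (max 4000 (2 * x₀)) (max (256 * (CK * CT)) (4000 * 3 ^ A * 2 ^ (A + 4)))))))))))
  obtain ⟨l, hl, hNZ⟩ := hgs (max (max l₁ l₂) (max (max (10 ^ 8) Y₀) (max (2000 * (N₀ : ℝ)) (2000 * (y₀ : ℝ)))))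
  have hll1 : l₁ ≤ l := (le_max_left _ _).trans ((le_max_left _ _).trans hl)
  have hll2 : l₂ ≤ l := (le_max_right _ _).trans ((le_max_left _ _).trans hl)
  have hl8 : (10 : ℝ) ^ 8 ≤ l := (le_max_left _ _).trans ((le_max_left _ _).trans ((le_max_right _ _).trans hl))
  have hlY : Y₀ ≤ l := (le_max_right _ _).trans ((le_max_left _ _).trans ((le_max_right _ _).trans hl))
  have hlN : 2000 * (N₀ : ℝ) ≤ l := (le_max_left _ _).trans ((le_max_right _ _).trans ((le_max_right _ _).trans hl))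
  have hly : 2000 * (y₀ : ℝ) ≤ l := (le_max_right _ _).trans ((le_max_right _ _).trans ((le_max_right _ _).trans hl))
  obtain ⟨⟨hl1, hℓ1, hA₁ℓ, hKℓ, hll, -⟩, hE1, hE2, hE3, hLg, hℓbig⟩ := hl₂ l hll2
  have hl0 : 0 < l := by linarith
  set ℓ : ℝ := Real.log l with hℓ
  have hℓ0 : 0 < ℓ := by linarith
  have hℓ4 : 4000 ≤ ℓ := (le_max_left _ _).trans ((le_max_left _ _).trans hℓbig)
  have hℓx : 2 * x₀ ≤ ℓ := (le_max_right _ _).trans ((le_max_left _ _).trans hℓbig)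
  have hℓC : 256 * (CK * CT) ≤ ℓ := (le_max_left _ _).trans ((le_max_right _ _).trans hℓbig)
  have hℓA : 4000 * 3 ^ A * 2 ^ (A + 4) ≤ ℓ := (le_max_right _ _).trans ((le_max_right _ _).trans hℓbig)
  have hℓsq : ℓ ≤ ℓ ^ 2 := by nlinarith only [hℓ1]
  have hlℓ : l ≤ l * ℓ ^ 2 := le_mul_of_one_le_right hl0.le (by nlinarith only [hℓ1])
  refine ⟨Real.exp (l * ℓ ^ 2), ?_, ?_⟩
  · linarith [Real.add_one_le_exp (l * ℓ ^ 2)]
  intro X hX1 hX2
  have hX0 : (0 : ℝ) < X := lt_of_lt_of_le (Real.exp_pos _) hX1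
  set L : ℝ := Real.log X with hL
  have hL1 : l * ℓ ^ 2 ≤ L := (Real.le_log_iff_exp_le hX0).2 hX1
  have hlogY : Real.log (Real.log (Real.exp (l * ℓ ^ 2))) ≤ 3 * ℓ := by
    rw [Real.log_exp, Real.log_mul (by positivity) (by positivity), Real.log_pow]
    have h1 : Real.log ℓ ≤ ℓ := (Real.log_le_sub_one_of_pos hℓ0).trans (by linarith)
    push_cast
    linarith
  have hlogY0 : 0 ≤ Real.log (Real.log (Real.exp (l * ℓ ^ 2))) := by
    rw [Real.log_exp]
    exact Real.log_nonneg (by linarith)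
  have hL2 : L ≤ 3 ^ A * l * ℓ ^ (A + 2) := by
    have h1 : L ≤ Real.log (Real.exp (l * ℓ ^ 2) ^ (Real.log (Real.log (Real.exp (l * ℓ ^ 2))) ^ A)) := Real.log_le_log hX0 hX2
    rw [Real.log_rpow (Real.exp_pos _), Real.log_exp] at h1
    rw [Real.log_exp] at hlogY hlogY0
    have h2 : Real.log (l * ℓ ^ 2) ^ A ≤ (3 * ℓ) ^ A := pow_le_pow_left₀ hlogY0 hlogY A
    calc L ≤ Real.log (l * ℓ ^ 2) ^ A * (l * ℓ ^ 2) := h1
      _ ≤ (3 * ℓ) ^ A * (l * ℓ ^ 2) := mul_le_mul_of_nonneg_right h2 (by positivity)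
      _ = 3 ^ A * l * ℓ ^ (A + 2) := by rw [mul_pow]; ring
  have hL0 : 0 < L := by linarith
  have hLl2 : L ≤ l ^ 2 := by linarith
  have hu : ℓ ≤ Real.log L := Real.log_le_log hl0 (by linarith)
  have hlℓℓ : l * ℓ * 1 ≤ l * ℓ ^ 2 := by nlinarith only [mul_nonneg hl0.le (sub_nonneg.2 hℓsq)]
  have h1lℓ : 1 ≤ l * ℓ := one_le_mul_of_one_le_of_one_le hl1 hℓ1
  have hXp : (X : ℝ) / 2 ≤ ((4 * X / 5 : ℕ) : ℝ) := by
    have hXbig : (4 : ℝ) ≤ X := by linarith [Real.add_one_le_exp (l * ℓ ^ 2)]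
    have h1 : 4 * X < 5 * (4 * X / 5) + 5 := by omega
    have h2 : (4 : ℝ) * X < 5 * ((4 * X / 5 : ℕ) : ℝ) + 5 := by exact_mod_cast h1
    linarith
  have hSD : SD2 D l (4 * X / 5) := by
    apply hGD' l hll1 hNZ
    · refine le_trans ?_ hXp
      rw [le_div_iff₀ (by norm_num)]
      have h2 : (2 : ℝ) ≤ Real.exp 1 := by linarith [Real.add_one_le_exp (1 : ℝ)]
      calc Real.exp (A₁ * l * Real.log l) * 2 ≤ Real.exp (A₁ * l * Real.log l) * Real.exp 1 := mul_le_mul_of_nonneg_left h2 (Real.exp_pos _).le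
        _ = Real.exp (A₁ * l * ℓ + 1) := by rw [← Real.exp_add]
        _ ≤ Real.exp (l * ℓ ^ 2) := by
            apply Real.exp_le_exp.2
            have h3 : l * ℓ * (A₁ + 1) ≤ l * ℓ * ℓ := mul_le_mul_of_nonneg_left hA₁ℓ (by positivity)
            nlinarith only [h3, h1lℓ]
        _ ≤ X := hX1
    · refine le_trans ?_ hll
      have h1 : ((16 * (4 * X / 5) + 1 : ℕ) : ℝ) ≤ 16 * X := by
        have h2 : 5 * (4 * X / 5) ≤ 4 * X := Nat.mul_div_le (4 * X) 5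
        have h3 : 5 * ((4 * X / 5 : ℕ) : ℝ) ≤ 4 * X := by exact_mod_cast h2
        have h4 : (1 : ℝ) ≤ X := by linarith [Real.add_one_le_exp (l * ℓ ^ 2)]
        rw [Nat.cast_add, Nat.cast_mul]
        push_cast at h3 ⊢
        linarith
      have h2 : Real.log (16 * X : ℝ) ≤ 3 + L := by
        rw [Real.log_mul (by norm_num) hX0.ne']
        have h3 : Real.log 16 ≤ 3 := by
          have h4 : Real.log 16 = 4 * Real.log 2 := by
            rw [show (16 : ℝ) = 2 ^ 4 by norm_num, Real.log_pow]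
            norm_num
          rw [h4]
          have := Real.log_two_lt_d9
          linarith
        linarith
      have h3 : (0 : ℝ) < ((16 * (4 * X / 5) + 1 : ℕ) : ℝ) := by exact_mod_cast Nat.succ_pos _
      exact (Real.log_le_log h3 h1).trans (by linarith)
  have hℓ2big : (16 : ℝ) ≤ ℓ ^ 2 := by nlinarith only [hℓ4]
  have h16l : 16 * l ≤ L := by
    have := mul_le_mul_of_nonneg_left hℓ2big hl0.le
    linarith
  have h5l : 5 * l ≤ l * ℓ ^ 2 := by
    have := mul_le_mul_of_nonneg_left hℓ2big hl0.le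
    linarith
  have hX5 : Real.exp (5 * l) ≤ X := (Real.exp_le_exp.2 h5l).trans hX1
  obtain ⟨w, hw1, hw2, hWl, hW1000, hbad⟩ := gq1 hTE hMD hMB (D := D) (D₁ := D₁) (c₁ := c₁) (l := l) (ε := 1 / 2000) (C := C) (X := X) (X' := 4 * X / 5)
    hD (hps l (by linarith)) hc₁C (by linarith) (by norm_num) le_rfl hE3 rfl hX5 hSD
  -- the logarithms
  set W : ℕ := primorial w with hW
  have hWpos : 0 < W := primorial_pos w
  have hW0 : (0 : ℝ) < W := by exact_mod_cast hWpos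
  have hwbig : (50000 : ℝ) ≤ w := by linarith
  have hw0 : (0 : ℝ) < w := by linarith
  have hw0' : 0 < w := by exact_mod_cast hw0
  set u : ℝ := Real.log L with hudef
  set u3 : ℝ := Real.log u with hu3def
  set u4 : ℝ := Real.log u3 with hu4def
  set lw : ℝ := Real.log w with hlwdef
  set l2 : ℝ := Real.log lw with hl2def
  set l3 : ℝ := Real.log l2 with hl3def
  have hlwℓ : lw ≤ ℓ := Real.log_le_log hw0 hw2
  have hlw2 : ℓ / 2 ≤ lw := by
    have h1 : ℓ - Real.log 2000 ≤ lw := by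
      rw [hℓ, ← Real.log_div hl0.ne' (by norm_num)]
      exact Real.log_le_log (by positivity) hw1
    have h2 : Real.log 2000 ≤ 2000 := (Real.log_le_sub_one_of_pos (by norm_num)).trans (by norm_num)
    linarith
  have hlw0 : 0 < lw := by linarith
  obtain ⟨hl22, hl23⟩ := hx₀ lw (by linarith)
  have hl22' : l2 ^ 2 ≤ lw := by linarith
  have hl20 : 0 < l2 := by linarith
  have hu2 : u ≤ 2 * ℓ := by
    have h1 : u ≤ Real.log (l ^ 2) := Real.log_le_log hL0 hLl2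
    rw [Real.log_pow] at h1
    push_cast at h1
    exact h1
  have hu0 : 0 < u := by linarith
  have hl2u : l2 ≤ u3 := Real.log_le_log hlw0 (by linarith)
  have hu3l : u3 ≤ 2 + l2 := by
    have h1 : u3 ≤ Real.log (4 * lw) := Real.log_le_log hu0 (by linarith)
    rw [Real.log_mul (by norm_num) hlw0.ne'] at h1
    have h2 : Real.log 4 ≤ 2 := by
      have h4 : Real.log 4 = 2 * Real.log 2 := by
        rw [show (4 : ℝ) = 2 ^ 2 by norm_num, Real.log_pow]
        norm_num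
      rw [h4]
      have := Real.log_two_lt_d9
      linarith
    linarith
  have hu30 : 0 < u3 := by linarith
  have hl31 : 1 ≤ l3 := by
    rw [hl3def, Real.le_log_iff_exp_le hl20]
    have := Real.exp_one_lt_d9
    linarith
  have hu4l : u4 ≤ 2 * l3 := by
    have h1 : u4 ≤ Real.log (l2 ^ 2) := Real.log_le_log hu30 (by nlinarith only [hu3l, hl23])
    rw [Real.log_pow] at h1
    push_cast at h1
    exact h1
  have hu40 : 0 ≤ u4 := Real.log_nonneg (by linarith)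
  have hu43 : u4 ≤ u3 ^ 2 := by
    have h1 : u4 ≤ u3 := (Real.log_le_sub_one_of_pos hu30).trans (by linarith)
    nlinarith only [h1, hl2u, hl23]
  have huL : u ≤ L := (Real.log_le_sub_one_of_pos hL0).trans (by linarith)
  have hL1' : 1 ≤ L := by linarith
  -- the bounds for `t`
  have htall : ∀ t : ℕ, (t : ℝ) ≤ c * (L * u * u4 / u3 ^ 2) → (t : ℝ) ≤ L * u := by
    intro t ht
    refine ht.trans ?_
    have h1 : L * u * u4 / u3 ^ 2 ≤ L * u := by
      rw [div_le_iff₀ (by positivity)]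
      exact mul_le_mul_of_nonneg_left hu43 (by positivity)
    calc c * (L * u * u4 / u3 ^ 2) ≤ 1 * (L * u * u4 / u3 ^ 2) := mul_le_mul_of_nonneg_right hc1 (by positivity)
      _ ≤ L * u := by rw [one_mul]; exact h1
  have hLu : L * u ≤ 2 * 3 ^ A * l * ℓ ^ (A + 3) := by
    calc L * u ≤ (3 ^ A * l * ℓ ^ (A + 2)) * (2 * ℓ) := mul_le_mul hL2 hu2 hu0.le (by positivity)
      _ = 2 * 3 ^ A * l * ℓ ^ (A + 3) := by ring
  have hLuw : L * u ≤ w * lw ^ (A + 4) := by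
    refine hLu.trans ?_
    have h1 : 2 * 3 ^ A * l * ℓ ^ (A + 3) ≤ w * (4000 * 3 ^ A) * ℓ ^ (A + 3) := by
      apply mul_le_mul_of_nonneg_right _ (by positivity)
      have h2 : l ≤ 2000 * w := by linarith
      calc 2 * 3 ^ A * l ≤ 2 * 3 ^ A * (2000 * w) := mul_le_mul_of_nonneg_left h2 (by positivity)
        _ = w * (4000 * 3 ^ A) := by ring
    refine h1.trans ?_
    have h3 : (ℓ / 2) ^ (A + 4) ≤ lw ^ (A + 4) := pow_le_pow_left₀ (by positivity) hlw2 _
    calc w * (4000 * 3 ^ A) * ℓ ^ (A + 3) = w * ((4000 * 3 ^ A * 2 ^ (A + 4)) * ℓ ^ (A + 3) / 2 ^ (A + 4)) := by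
          field_simp
      _ ≤ w * (ℓ * ℓ ^ (A + 3) / 2 ^ (A + 4)) := by
          apply mul_le_mul_of_nonneg_left _ hw0.le
          apply div_le_div_of_nonneg_right _ (by positivity)
          exact mul_le_mul_of_nonneg_right hℓA (by positivity)
      _ = w * (ℓ / 2) ^ (A + 4) := by
          rw [div_pow]
          congr 1
          ring
      _ ≤ w * lw ^ (A + 4) := mul_le_mul_of_nonneg_left h3 hw0.le
  have hLuw2 : L * u ≤ (w : ℝ) ^ 2 := by
    refine hLu.trans ?_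
    have h1 : l ^ 2 / 4000000 ≤ (w : ℝ) ^ 2 := by
      have h2 : (l / 2000) ^ 2 ≤ (w : ℝ) ^ 2 := pow_le_pow_left₀ (by positivity) hw1 2
      calc l ^ 2 / 4000000 = (l / 2000) ^ 2 := by ring
        _ ≤ _ := h2
    refine le_trans ?_ h1
    rw [le_div_iff₀ (by norm_num)]
    calc 2 * 3 ^ A * l * ℓ ^ (A + 3) * 4000000 = l * (8 * 10 ^ 6 * 3 ^ A * ℓ ^ (A + 3)) := by ring
      _ ≤ l * l := mul_le_mul_of_nonneg_left hLg hl0.le
      _ = l ^ 2 := by ring
  have hLuL : L * u ≤ L ^ 2 := by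
    rw [sq]
    exact mul_le_mul_of_nonneg_left huL hL0.le
  -- the exceptional set
  have hy₀w : y₀ ≤ w := by
    have h1 : (y₀ : ℝ) ≤ w := by linarith
    exact_mod_cast h1
  have hκex : ∀ t : ℕ, ∃ κ : ℕ, 2 ∣ t → 0 < t → (t : ℝ) ≤ w * lw ^ (A + 4) → κ.Coprime W ∧ (κ + t).Coprime W ∧
      (((Ioo 0 t).filter (fun j => (κ + j).Coprime W)).card : ℝ) ≤ CK * (t + w) * l2 ^ 2 / (lw ^ 2 * l3) := by
    intro t
    by_cases h1 : 2 ∣ t ∧ 0 < t ∧ (t : ℝ) ≤ w * lw ^ (A + 4)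
    · obtain ⟨κ, hκ⟩ := hkap w hy₀w t h1.1 h1.2.1 h1.2.2
      exact ⟨κ, fun _ _ _ => hκ⟩
    · exact ⟨0, fun g1 g2 g3 => absurd ⟨g1, g2, g3⟩ h1⟩
  choose κ hκ using hκex
  set A₀ : ℕ := ⌊(X : ℝ) / L ^ 2⌋₊ with hA₀
  set T₀ : ℕ := ⌊L ^ 2⌋₊ with hT₀
  set Bd : ℕ → Finset ℕ := fun t => (Icc 1 A₀).filter (fun a => a.Coprime W ∧ Sg w ((t * a : ℕ) : ℤ) ≤ 1 / 2000 ∧
        ∀ v : ℕ, X < W * v → W * (v + X / W / 2 + 1) ≤ 2 * X →
          ∑ s ∈ range (X / W / 2), nu ((κ t * a) % W + W * (v + s)) * nu ((κ t * a) % W + W * (v + s) + t * a) <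
            ((X / W / 2 : ℕ) : ℝ) / 2 * ((W : ℝ) / (Nat.totient W : ℝ)) ^ 2) with hBd
  set TT : Finset ℕ := (Icc 1 T₀).filter (fun t => 2 ∣ t ∧ (t : ℝ) ≤ w * lw ^ (A + 4)) with hTT
  have hA₀le : (A₀ : ℝ) ≤ X / L ^ 2 := Nat.floor_le (by positivity)
  have hT₀le : (T₀ : ℝ) ≤ L ^ 2 := Nat.floor_le (by positivity)
  have hWL : 64 * (W : ℝ) * L ^ 2 ≤ Real.exp (l / 350) := by
    have h1 : L ^ 2 ≤ l ^ 4 := by
      calc L ^ 2 ≤ (l ^ 2) ^ 2 := pow_le_pow_left₀ hL0.le hLl2 2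
        _ = l ^ 4 := by ring
    calc 64 * (W : ℝ) * L ^ 2 = W * (64 * L ^ 2) := by ring
      _ ≤ Real.exp (l / 700) * Real.exp (l / 700) := by
          apply mul_le_mul hWl _ (by positivity) (Real.exp_pos _).le
          exact (mul_le_mul_of_nonneg_left h1 (by norm_num)).trans hE1
      _ = Real.exp (l / 350) := by
          rw [← Real.exp_add]
          congr 1
          ring
  have hWA : W ≤ A₀ := by
    rw [hA₀]
    apply Nat.le_floor
    rw [le_div_iff₀ (by positivity)]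
    have h1 : Real.exp (l / 350) ≤ X := (Real.exp_le_exp.2 (by linarith)).trans hX5
    have h2 : 0 ≤ (W : ℝ) * L ^ 2 := by positivity
    linarith
  have hBdc : ∀ t ∈ TT, ((Bd t).card : ℝ) ≤ 4 * A₀ / l ^ D₁ + 20000 * X * Real.exp (-(l / 200)) := by
    intro t ht
    rw [hTT, mem_filter, Finset.mem_Icc] at ht
    obtain ⟨⟨ht1, ht2⟩, ht3, ht4⟩ := ht
    obtain ⟨k1, k2, _⟩ := hκ t ht3 (by omega) ht4
    refine hbad (κ t) t A₀ (by omega) k1 k2 ?_ hWA
    have h1 : ((t * A₀ : ℕ) : ℝ) ≤ X := by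
      push_cast
      have h2 : (t : ℝ) ≤ L ^ 2 := by
        have : (t : ℝ) ≤ T₀ := by exact_mod_cast ht2
        linarith
      calc (t : ℝ) * A₀ ≤ L ^ 2 * (X / L ^ 2) := mul_le_mul h2 hA₀le (Nat.cast_nonneg _) (by positivity)
        _ = X := by field_simp
    exact_mod_cast h1
  refine ⟨range (w + 1) ∪ TT.biUnion Bd, ?_, ?_⟩
  · -- the count
    have hTTc : (TT.card : ℝ) ≤ L ^ 2 := by
      have h1 : TT.card ≤ T₀ := by
        refine (card_filter_le _ _).trans ?_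
        rw [Nat.card_Icc]
        omega
      have h2 : (TT.card : ℝ) ≤ T₀ := by exact_mod_cast h1
      linarith
    have h1 : (((range (w + 1) ∪ TT.biUnion Bd).card : ℕ) : ℝ) ≤ (w + 1) + L ^ 2 * (4 * (X / L ^ 2) / l ^ D₁ + 20000 * X * Real.exp (-(l / 200))) := by
      have h2 : (((range (w + 1) ∪ TT.biUnion Bd).card : ℕ) : ℝ) ≤ ((range (w + 1)).card : ℝ) + ((TT.biUnion Bd).card : ℝ) := by
        exact_mod_cast card_union_le _ _
      have h3 : ((TT.biUnion Bd).card : ℝ) ≤ ∑ t ∈ TT, ((Bd t).card : ℝ) := by exact_mod_cast card_biUnion_le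
      have h4 : ∑ t ∈ TT, ((Bd t).card : ℝ) ≤ ∑ t ∈ TT, (4 * (X / L ^ 2) / l ^ D₁ + 20000 * X * Real.exp (-(l / 200))) := by
        apply sum_le_sum
        intro t ht
        refine (hBdc t ht).trans ?_
        have : 4 * (A₀ : ℝ) / l ^ D₁ ≤ 4 * (X / L ^ 2) / l ^ D₁ := by
          apply div_le_div_of_nonneg_right _ (by positivity)
          linarith
        linarith
      rw [sum_const, nsmul_eq_mul] at h4
      have h5 : (TT.card : ℝ) * (4 * (X / L ^ 2) / l ^ D₁ + 20000 * X * Real.exp (-(l / 200))) ≤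
          L ^ 2 * (4 * (X / L ^ 2) / l ^ D₁ + 20000 * X * Real.exp (-(l / 200))) :=
        mul_le_mul_of_nonneg_right hTTc (by positivity)
      rw [card_range] at h2
      push_cast at h2
      linarith
    refine h1.trans ?_
    have hLB : L ^ B ≤ l ^ (2 * B) := by
      calc L ^ B ≤ (l ^ 2) ^ B := pow_le_pow_left₀ hL0.le hLl2 B
        _ = l ^ (2 * B) := by rw [← pow_mul]
    have hLB0 : 0 < L ^ B := by positivity
    rw [le_div_iff₀ hLB0]
    have g1 : ((w : ℝ) + 1) * L ^ B ≤ X / 4 := by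
      have h2 : (w : ℝ) + 1 ≤ 2 * l := by linarith
      have h3 : ((w : ℝ) + 1) * L ^ B ≤ 2 * l * l ^ (2 * B) := mul_le_mul h2 hLB hLB0.le (by positivity)
      have h4 : l ^ (2 * B + 1) ≤ l ^ (2 * B + 4) := pow_le_pow_right₀ hl1 (by omega)
      have h5 : Real.exp (l / 200) ≤ X := (Real.exp_le_exp.2 (by linarith)).trans hX5
      have h6 : 2 * l * l ^ (2 * B) = 2 * l ^ (2 * B + 1) := by ring
      have h7 : 0 ≤ l ^ (2 * B + 4) := by positivity
      linarith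
    have g2 : L ^ 2 * (4 * (X / L ^ 2) / l ^ D₁) * L ^ B ≤ X / 4 := by
      have e : L ^ 2 * (4 * (X / L ^ 2) / l ^ D₁) * L ^ B = 4 * X * (L ^ B / l ^ D₁) := by
        field_simp
      rw [e]
      have h2 : L ^ B / l ^ D₁ ≤ 1 / 16 := by
        rw [div_le_div_iff₀ (by positivity) (by norm_num), hD₁, pow_add]
        have h3 : (16 : ℝ) ≤ l ^ 2 := by nlinarith only [hl8]
        calc L ^ B * 16 ≤ l ^ (2 * B) * l ^ 2 := mul_le_mul hLB h3 (by norm_num) (by positivity)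
          _ = 1 * (l ^ (2 * B) * l ^ 2) := by ring
      have := mul_le_mul_of_nonneg_left h2 (show (0 : ℝ) ≤ 4 * X by positivity)
      linarith
    have g3 : L ^ 2 * (20000 * X * Real.exp (-(l / 200))) * L ^ B ≤ X / 4 := by
      have h2 : L ^ 2 * L ^ B ≤ l ^ (2 * B + 4) := by
        calc L ^ 2 * L ^ B ≤ l ^ 4 * l ^ (2 * B) := by
              apply mul_le_mul _ hLB hLB0.le (by positivity)
              calc L ^ 2 ≤ (l ^ 2) ^ 2 := pow_le_pow_left₀ hL0.le hLl2 2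
                _ = l ^ 4 := by ring
          _ = l ^ (2 * B + 4) := by ring
      have h3 : 80000 * (L ^ 2 * L ^ B) ≤ Real.exp (l / 200) := (mul_le_mul_of_nonneg_left h2 (by norm_num)).trans hE2
      have h4 : 80000 * (L ^ 2 * L ^ B) * Real.exp (-(l / 200)) ≤ 1 := by
        calc 80000 * (L ^ 2 * L ^ B) * Real.exp (-(l / 200)) ≤ Real.exp (l / 200) * Real.exp (-(l / 200)) :=
              mul_le_mul_of_nonneg_right h3 (Real.exp_pos _).le
          _ = 1 := by rw [← Real.exp_add]; simp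
      calc L ^ 2 * (20000 * X * Real.exp (-(l / 200))) * L ^ B = (X : ℝ) / 4 * (80000 * (L ^ 2 * L ^ B) * Real.exp (-(l / 200))) := by ring
        _ ≤ (X : ℝ) / 4 * 1 := mul_le_mul_of_nonneg_left h4 (by positivity)
        _ = (X : ℝ) / 4 := by ring
    have e : ((w : ℝ) + 1 + L ^ 2 * (4 * (X / L ^ 2) / l ^ D₁ + 20000 * X * Real.exp (-(l / 200)))) * L ^ B =
        ((w : ℝ) + 1) * L ^ B + L ^ 2 * (4 * (X / L ^ 2) / l ^ D₁) * L ^ B + L ^ 2 * (20000 * X * Real.exp (-(l / 200))) * L ^ B := by ring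
    rw [e]
    linarith
  -- the gaps
  intro a hap haX haE t ht0 ht2 htc
  rw [mem_union, not_or] at haE
  obtain ⟨haw', haB⟩ := haE
  have haw : w < a := by
    rw [Finset.mem_range] at haw'
    omega
  have haA₀ : a ≤ A₀ := Nat.le_floor haX
  have htLu := htall t htc
  have htw : (t : ℝ) ≤ w * lw ^ (A + 4) := htLu.trans hLuw
  have htw2 : t ≤ w ^ 2 := by
    have h1 : (t : ℝ) ≤ (w : ℝ) ^ 2 := htLu.trans hLuw2
    exact_mod_cast h1
  have htT : t ∈ TT := by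
    rw [hTT, mem_filter, Finset.mem_Icc]
    exact ⟨⟨ht0, Nat.le_floor (htLu.trans hLuL)⟩, ht2, htw⟩
  obtain ⟨k1, k2, k3⟩ := hκ t ht2 ht0 htw
  have hnb : a ∉ Bd t := fun h => haB (mem_biUnion.2 ⟨t, htT, h⟩)
  have haW : a.Coprime W := by
    rw [Nat.Prime.coprime_iff_not_dvd hap]
    intro h1
    have h2 : a ∈ (primorial w).primeFactors := Nat.mem_primeFactors.2 ⟨hap, h1, (primorial_pos w).ne'⟩
    rw [primeFactors_primorial] at h2
    have := Nat.le_of_mem_primesLE h2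
    omega
  have hsgS : Sg w ((t * a : ℕ) : ℤ) ≤ 1 / 2000 := by
    refine (Sg_small ht0 htw2 hap haw hw0').trans ?_
    rw [div_le_div_iff₀ hw0 (by norm_num)]
    linarith
  have hex : ∃ v : ℕ, X < W * v ∧ W * (v + X / W / 2 + 1) ≤ 2 * X ∧ ((X / W / 2 : ℕ) : ℝ) / 2 * ((W : ℝ) / (Nat.totient W : ℝ)) ^ 2 ≤
      ∑ s ∈ range (X / W / 2), nu ((κ t * a) % W + W * (v + s)) * nu ((κ t * a) % W + W * (v + s) + t * a) := by
    by_contra hcon
    apply hnb
    rw [hBd]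
    rw [mem_filter]
    refine ⟨Finset.mem_Icc.2 ⟨hap.one_lt.le, haA₀⟩, haW, hsgS, ?_⟩
    intro v hv1 hv2
    by_contra hlt
    exact hcon ⟨v, hv1, hv2, not_lt.1 hlt⟩
  obtain ⟨v, hv1, hv2, hv3⟩ := hex
  set N : ℕ := X / W / 2 with hN
  have htaX : t * a ≤ X := by
    have h1 : ((t * a : ℕ) : ℝ) ≤ X := by
      push_cast
      calc (t : ℝ) * a ≤ L ^ 2 * (X / L ^ 2) := mul_le_mul (htLu.trans hLuL) haX (Nat.cast_nonneg _) (by positivity)
        _ = X := by field_simp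
    exact_mod_cast h1
  have hXW : X < W * (X / W) + W := by
    have := Nat.lt_mul_div_succ X hWpos
    rw [Nat.mul_add] at this
    omega
  have hq1000 : 1000 ≤ X / W := by
    rw [Nat.le_div_iff_mul_le hWpos]
    omega
  have hN4 : X ≤ 4 * (W * N) := by
    have h1 : X / W + 1 ≤ 4 * N := by omega
    have h2 : W * (X / W + 1) ≤ W * (4 * N) := Nat.mul_le_mul_left W h1
    rw [Nat.mul_add, Nat.mul_one] at h2
    have h3 : W * (4 * N) = 4 * (W * N) := by ring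
    omega
  have hN4r : (X : ℝ) ≤ 4 * (W * N) := by exact_mod_cast hN4
  have hN0 : (0 : ℝ) < N := by
    have : 0 < N := by omega
    exact_mod_cast this
  have hNX : N ≤ X := (Nat.div_le_self _ _).trans (Nat.div_le_self _ _)
  have hLNlow : L ≤ 2 * Real.log N := by
    have h1 : L ≤ Real.log (4 * (W * N)) := Real.log_le_log hX0 hN4r
    rw [Real.log_mul (by norm_num) (by positivity), Real.log_mul hW0.ne' hN0.ne'] at h1
    have h2 : Real.log W ≤ l / 700 := by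
      rw [← Real.log_exp (l / 700)]
      exact Real.log_le_log hW0 hWl
    have h3 : Real.log 4 ≤ 4 := (Real.log_le_sub_one_of_pos (by norm_num)).trans (by norm_num)
    linarith
  have hwN : (w : ℝ) ≤ Real.log N := by linarith
  have hN₀N : N₀ ≤ N := by
    have h1 : (N₀ : ℝ) ≤ N := by
      have h2 : Real.log N ≤ N := (Real.log_le_sub_one_of_pos hN0).trans (by linarith)
      linarith
    exact_mod_cast h1
  have hN₀w : N₀ ≤ w := by
    have h1 : (N₀ : ℝ) ≤ w := by linarith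
    exact_mod_cast h1
  have hwX : w < X := by
    have h1 : (w : ℝ) < X := by
      have h2 : Real.log N ≤ N := (Real.log_le_sub_one_of_pos hN0).trans (by linarith)
      have h3 : 2 * w ≤ Real.log N := by linarith
      have h4 : (N : ℝ) ≤ X := by exact_mod_cast hNX
      linarith
    exact_mod_cast h1
  have hmain := lemA (C := CT * N * (lw / Real.log N) ^ 3) (X := X) (w := w) (v := v) (t := t) (κ := κ t) (a := a) (N := N) hNX
    (fun r hr1 hr2 => htri N w hN₀N hN₀w hwN r hr1 hr2) hv1 hv2 hv3 hap haw htaX k1 k2 htw2 ht0 hwX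
  have hLx0 : 0 < Real.log (3 * X) := by
    apply Real.log_pos
    have : (1 : ℝ) ≤ X := by linarith [Real.add_one_le_exp (l * ℓ ^ 2)]
    linarith
  have hLx2 : Real.log (3 * X) ≤ 2 * L := by
    rw [Real.log_mul (by norm_num) hX0.ne']
    have h3 : Real.log 3 ≤ 3 := (Real.log_le_sub_one_of_pos (by norm_num)).trans (by norm_num)
    linarith
  have hRlw : lw ≤ (W : ℝ) / (Nat.totient W : ℝ) := by
    refine le_trans ?_ (log_le_ratio w)
    apply Real.log_le_log hw0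
    push_cast
    linarith
  have hwLL : 256 * (CK * CT) * w ≤ L := by
    calc 256 * (CK * CT) * w ≤ ℓ * l := mul_le_mul hℓC hw2 hw0.le hℓ0.le
      _ = l * ℓ * 1 := by ring
      _ ≤ l * ℓ ^ 2 := hlℓℓ
      _ ≤ L := hL1
  have han := an8 (L := L) (w := w) (u := u) (u3 := u3) (u4 := u4) (lw := lw) (l2 := l2) (l3 := l3) (CK := CK) (CT := CT) (c := c) (t := t)
    (Ns := (((Ioo 0 t).filter (fun j => (κ t + j).Coprime W)).card : ℝ)) (N := N) (R := (W : ℝ) / (Nat.totient W : ℝ)) (Lx := Real.log (3 * X))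
    (LN := Real.log N) hCK hCT hc0 hc2 hL0 hw0 hlw0 (by linarith) hu0.le hl20.le hl2u hl22' hl31 hu4l hu40 hu30 hwLL htc k3 (Nat.cast_nonneg _)
    hN0.le hRlw hLx0 hLx2 hLNlow
  have hR1 : (1 : ℝ) ≤ (W : ℝ) / (Nat.totient W : ℝ) := by linarith
  have hfin : X * Real.exp (-(L / u)) ≤ N / 4 * ((W : ℝ) / (Nat.totient W : ℝ)) ^ 2 / Real.log (3 * X) ^ 2 := by
    have h1 : (N : ℝ) / (16 * L ^ 2) ≤ N / 4 * ((W : ℝ) / (Nat.totient W : ℝ)) ^ 2 / Real.log (3 * X) ^ 2 := by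
      rw [div_le_div_iff₀ (by positivity) (by positivity)]
      have h2 : Real.log (3 * X) ^ 2 ≤ (2 * L) ^ 2 := pow_le_pow_left₀ hLx0.le hLx2 2
      have h3 : (1 : ℝ) ≤ ((W : ℝ) / (Nat.totient W : ℝ)) ^ 2 := one_le_pow₀ hR1
      calc (N : ℝ) * Real.log (3 * X) ^ 2 ≤ (N * ((W : ℝ) / (Nat.totient W : ℝ)) ^ 2) * (2 * L) ^ 2 := by
            apply mul_le_mul _ h2 (by positivity) (by positivity)
            exact le_mul_of_one_le_right hN0.le h3
        _ = N / 4 * ((W : ℝ) / (Nat.totient W : ℝ)) ^ 2 * (16 * L ^ 2) := by ring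
    refine le_trans ?_ h1
    rw [le_div_iff₀ (by positivity)]
    have h4 : l / 350 ≤ L / u := by
      rw [le_div_iff₀ hu0]
      calc l / 350 * u ≤ l / 350 * (2 * ℓ) := mul_le_mul_of_nonneg_left hu2 (by positivity)
        _ ≤ l * ℓ * 1 := by
            have : 0 ≤ l * ℓ := by positivity
            linarith
        _ ≤ l * ℓ ^ 2 := hlℓℓ
        _ ≤ L := hL1
    have h5 : Real.exp (-(L / u)) * (64 * W * L ^ 2) ≤ 1 := by
      calc Real.exp (-(L / u)) * (64 * W * L ^ 2) ≤ Real.exp (-(l / 350)) * Real.exp (l / 350) := by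
            apply mul_le_mul _ hWL (by positivity) (Real.exp_pos _).le
            exact Real.exp_le_exp.2 (by linarith)
        _ = 1 := by rw [← Real.exp_add]; simp
    have h6 : 0 ≤ Real.exp (-(L / u)) * (16 * L ^ 2) := by positivity
    calc X * Real.exp (-(L / u)) * (16 * L ^ 2) = X * (Real.exp (-(L / u)) * (16 * L ^ 2)) := by ring
      _ ≤ (4 * (W * N)) * (Real.exp (-(L / u)) * (16 * L ^ 2)) := mul_le_mul_of_nonneg_right hN4r h6
      _ = N * (Real.exp (-(L / u)) * (64 * W * L ^ 2)) := by ring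
      _ ≤ N * 1 := mul_le_mul_of_nonneg_left h5 hN0.le
      _ = N := by ring
  refine hfin.trans ?_
  refine le_trans ?_ hmain
  have e : (N : ℝ) / 2 * ((W : ℝ) / (Nat.totient W : ℝ)) ^ 2 / Real.log (3 * X) ^ 2 =
      N / 4 * ((W : ℝ) / (Nat.totient W : ℝ)) ^ 2 / Real.log (3 * X) ^ 2 + N / 4 * ((W : ℝ) / (Nat.totient W : ℝ)) ^ 2 / Real.log (3 * X) ^ 2 := by ring
  rw [e]
  linarith

end Pool.Agent.J4H81.GQ
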